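import Pool.Agent.LibCCR.Sem

/-!
The Boolean algorithm: adding a set of tokens to a known history of a network.
-/

namespace Pool.Agent.LibCCR

open Relation Pool.Agent.LibCC

variable {n m : ℕ}

/-- Positions of the input bits: `gate t c i` says whether `i` is the wire of the comparator `t`
receiving the conjunction (`c = false`) or the disjunction (`c = true`); `src i` is the bit on
the wire `i` at the beginning. -/
inductive Bit (n m : ℕ) : Type
  | gate (t : Fin m) (c : Bool) (i : Fin n)
  | src (i : Fin n)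

/-- Nodes: a time and a wire. -/
abbrev Nd (n m : ℕ) : Type := Fin (m + 1) × Fin n

/-- The bits `z` describe the network `N` (up to time `m`). -/
def Enc (z : Bit n m → Bool) (N : ℕ → Fin n × Fin n) : Prop :=
  ∀ (t : Fin m) (c : Bool) (i : Fin n),
    z (.gate t c i) = decide ((if c then (N t).2 else (N t).1) = i)

/-- Access to the description of a comparator, possibly with the two wires exchanged. -/
def sel (sw : Bool) (z : Bit n m → Bool) (t : Fin m) (c : Bool) (i : Fin n) : Bool :=
  z (.gate t (if sw then !c else c) i)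

/-- The network with the two wires of every comparator exchanged if `sw`. -/
def Ns (sw : Bool) (N : ℕ → Fin n × Fin n) (t : ℕ) : Fin n × Fin n :=
  if sw then ((N t).2, (N t).1) else N t

theorem sel_false {z : Bit n m → Bool} {N : ℕ → Fin n × Fin n} (hz : Enc z N) (sw : Bool)
    (t : Fin m) : sel sw z t false = fun i => decide ((Ns sw N t).1 = i) := by
  funext i
  cases sw <;> simp [sel, Ns, hz t]

theorem sel_true {z : Bit n m → Bool} {N : ℕ → Fin n × Fin n} (hz : Enc z N) (sw : Bool)
    (t : Fin m) : sel sw z t true = fun i => decide ((Ns sw N t).2 = i) := by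
  funext i
  cases sw <;> simp [sel, Ns, hz t]

def getB (s y : Fin n → Bool) : Bool := decide (∃ k, (s k && y k) = true)

theorem getB_eq (a : Fin n) (y : Fin n → Bool) : getB (fun i => decide (a = i)) y = y a := by
  rw [Bool.eq_iff_iff]
  simp [getB]

def nxB (l h y : Fin n → Bool) (i j : Fin n) : Bool :=
  (l i && ((getB h y && l j) || (!getB h y && h j))) ||
  (((!l i && h i) && ((getB l y && l j) || (!getB l y && h j))) ||
  ((!l i && !h i) && decide (i = j)))

theorem nxB_iff (p : Fin n × Fin n) (y : Fin n → Bool) (i j : Fin n) :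
    nxB (fun i => decide (p.1 = i)) (fun i => decide (p.2 = i)) y i j = true ↔
      nxt p y i = j := by
  unfold nxB nxt
  simp only [getB_eq]
  by_cases h1 : i = p.1
  · subst h1
    cases y p.2 <;> simp
  · have h1' : ¬ p.1 = i := fun h => h1 h.symm
    by_cases h2 : i = p.2
    · subst h2
      cases hy : y p.1 <;> simp [h1, h1']
    · have h2' : ¬ p.2 = i := fun h => h2 h.symm
      simp [h1, h1', h2, h2']

/-- The bit after a comparator. -/
def cmpB (l h y : Fin n → Bool) (i : Fin n) : Bool :=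
  (l i && (getB l y && getB h y)) ||
  (((!l i && h i) && (getB l y || getB h y)) || ((!l i && !h i) && y i))

theorem cmpB_eq (p : Fin n × Fin n) (y : Fin n → Bool) (i : Fin n) :
    cmpB (fun i => decide (p.1 = i)) (fun i => decide (p.2 = i)) y i = cmp p y i := by
  unfold cmpB cmp
  simp only [getB_eq]
  by_cases h1 : i = p.1
  · subst h1
    simp
  · have h1' : ¬ p.1 = i := fun h => h1 h.symm
    by_cases h2 : i = p.2
    · subst h2
      simp [h1, h1']
    · have h2' : ¬ p.2 = i := fun h => h2 h.symm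
      simp [h1, h1', h2, h2']

/-- Reflexive step matrix of the paths of tokens in the history `E`. -/
def matE (sw : Bool) (z : Bit n m → Bool) (E : Nd n m → Bool) (q : Nd n m × Nd n m) : Bool :=
  decide (q.1 = q.2) ||
    (if h : (q.1.1 : ℕ) < m ∧ (q.2.1 : ℕ) = q.1.1 + 1 then
      nxB (sel sw z ⟨q.1.1, h.1⟩ false) (sel sw z ⟨q.1.1, h.1⟩ true)
        (fun k => E (q.1.1, k)) q.1.2 q.2.2
    else false)

def Rel (N : ℕ → Fin n × Fin n) (E : Nd n m → Bool) (u v : Nd n m) : Prop :=
  (v.1 : ℕ) = u.1 + 1 ∧ nxt (N u.1) (fun k => E (u.1, k)) u.2 = v.2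

theorem matE_iff {z : Bit n m → Bool} {N : ℕ → Fin n × Fin n} (hz : Enc z N) (sw : Bool)
    (E : Nd n m → Bool) (u v : Nd n m) :
    matE sw z E (u, v) = true ↔ u = v ∨ Rel (Ns sw N) E u v := by
  unfold matE Rel
  by_cases h : (u.1 : ℕ) < m ∧ (v.1 : ℕ) = u.1 + 1
  · rw [dif_pos h, sel_false hz, sel_true hz, Bool.or_eq_true, nxB_iff]
    simp [h.2]
  · rw [dif_neg h]
    have h2 : ¬ (v.1 : ℕ) = u.1 + 1 := by
      intro h3
      have := v.1.isLt
      exact h ⟨by omega, h3⟩
    simp [h2]

/-- Outputs of comparators both of whose inputs belong to `A`. -/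
def colE (sw : Bool) (z : Bit n m → Bool) (A : Nd n m → Bool) (u : Nd n m) : Bool :=
  if h : 0 < (u.1 : ℕ) then
    (sel sw z ⟨u.1 - 1, by have := u.1.isLt; omega⟩ false u.2 ||
      sel sw z ⟨u.1 - 1, by have := u.1.isLt; omega⟩ true u.2) &&
    (getB (sel sw z ⟨u.1 - 1, by have := u.1.isLt; omega⟩ false)
        (fun k => A (⟨u.1 - 1, by have := u.1.isLt; omega⟩, k)) &&
      getB (sel sw z ⟨u.1 - 1, by have := u.1.isLt; omega⟩ true)
        (fun k => A (⟨u.1 - 1, by have := u.1.isLt; omega⟩, k)))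
  else false

theorem colE_iff {z : Bit n m → Bool} {N : ℕ → Fin n × Fin n} (hz : Enc z N) (sw : Bool)
    (A : Nd n m → Bool) (t : ℕ) (ht : t < m) (j : Fin n) :
    colE sw z A (⟨t + 1, by omega⟩, j) = true ↔
      (j = (Ns sw N t).1 ∨ j = (Ns sw N t).2) ∧
      A (⟨t, by omega⟩, (Ns sw N t).1) = true ∧ A (⟨t, by omega⟩, (Ns sw N t).2) = true := by
  unfold colE
  rw [dif_pos (Nat.succ_pos t)]
  simp only [Nat.add_sub_cancel]
  rw [sel_false hz, sel_true hz]
  simp only [getB_eq, Bool.and_eq_true, Bool.or_eq_true, decide_eq_true_eq]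
  constructor
  · rintro ⟨h1 | h1, h2⟩
    · exact ⟨Or.inl h1.symm, h2⟩
    · exact ⟨Or.inr h1.symm, h2⟩
  · rintro ⟨h1 | h1, h2⟩
    · exact ⟨Or.inl h1.symm, h2⟩
    · exact ⟨Or.inr h1.symm, h2⟩

/-- The tokens to be added at time `t1`. -/
def srcE (sw : Bool) (t1 : ℕ) (Y E : Nd n m → Bool) (u : Nd n m) : Bool :=
  decide ((u.1 : ℕ) = t1) && ((if sw then !Y u else Y u) && !E u)

def rndE (sw : Bool) (t1 : ℕ) (z : Bit n m → Bool) (Y E : Nd n m → Bool)
    (T : Nd n m × Nd n m → Bool) (A : Nd n m → Bool) (v : Nd n m) : Bool :=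
  decide (∃ u, ((srcE sw t1 Y E u || colE sw z A u) && T (u, v)) = true)

/-- The history after adding the tokens. -/
def hopE (sw : Bool) (t1 L R : ℕ) (z : Bit n m → Bool) (Y E : Nd n m → Bool) :
    Nd n m → Bool := fun v =>
  E v || ((rndE sw t1 z Y E (sq^[L] (matE sw z E)))^[R + 1] (fun _ => false)) v

theorem hop_spec {z : Bit n m → Bool} {N : ℕ → Fin n × Fin n} (hz : Enc z N)
    (hN : ∀ t, (N t).1 ≠ (N t).2) (sw : Bool) {L : ℕ}
    (hL : Fintype.card (Nd n m) ≤ 2 ^ L) (R : ℕ) (Y E : Nd n m → Bool) {t1 K : ℕ}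
    (htK : t1 + K ≤ m) {y z0 : Fin n → Bool}
    (hE : ∀ k (hk : k ≤ K) i, E (⟨t1 + k, by omega⟩, i) = tr (Ns sw N) t1 y k i)
    (hz0 : ∀ i, (if sw then !Y (⟨t1, by omega⟩, i) else Y (⟨t1, by omega⟩, i)) = z0 i)
    (hlab : LabOK (Ns sw N) t1 y (fun i => y i || z0 i) R K) :
    ∀ k (hk : k ≤ K) i, hopE sw t1 L R z Y E (⟨t1 + k, by omega⟩, i) =
      tr (Ns sw N) t1 (fun i => y i || z0 i) k i := by
  set N' := Ns sw N with hN'def
  have hN' : ∀ t, (N' t).1 ≠ (N' t).2 := by
    intro t
    rw [hN'def]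
    unfold Ns
    cases sw
    · exact hN t
    · exact (hN t).symm
  set y1 : Fin n → Bool := fun i => y i || z0 i with hy1
  have hle0 : Le y y1 := by
    intro i hi
    simp [hy1, hi]
  have hle : ∀ k, Le (tr N' t1 y k) (tr N' t1 y1 k) := fun k => tr_le hN' t1 hle0 k
  set T := sq^[L] (matE sw z E) with hT
  have hTiff : ∀ u v, T (u, v) = true ↔ ReflTransGen (Rel N' E) u v :=
    fun u v => sq_iterate_iff (matE_iff hz sw E) hL (ht := fun u => (u.1 : ℕ))
      (fun e f h => by rw [h.1]; exact Nat.lt_succ_self _) u v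
  set A : ℕ → Nd n m → Bool := fun r => (rndE sw t1 z Y E T)^[r] (fun _ => false) with hA
  have hAs : ∀ r v, A (r + 1) v = true ↔ ∃ u, (srcE sw t1 Y E u = true ∨
      colE sw z (A r) u = true) ∧ ReflTransGen (Rel N' E) u v := by
    intro r v
    simp only [hA]
    rw [Function.iterate_succ_apply']
    simp only [rndE, decide_eq_true_eq, Bool.and_eq_true, Bool.or_eq_true, hTiff]
  have hstart : ∀ i, E (⟨t1, by omega⟩, i) = y i := by
    intro i
    exact hE 0 (Nat.zero_le _) i
  have hsrc : ∀ u : Nd n m, srcE sw t1 Y E u = true ↔ (u.1 : ℕ) = t1 ∧ Df y y1 u.2 := by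
    rintro ⟨t, i⟩
    by_cases ht : (t : ℕ) = t1
    · have hte : t = ⟨t1, by omega⟩ := Fin.ext ht
      have h1 : srcE sw t1 Y E (t, i) = (z0 i && !y i) := by
        unfold srcE
        rw [hte, hz0, hstart]
        simp
      rw [h1]
      simp only [Df, hy1, ht, true_and]
      cases y i <;> cases z0 i <;> simp
    · simp [srcE, ht]
  let P : Nd n m → Prop := fun v => t1 ≤ (v.1 : ℕ) ∧
      ∀ k, k ≤ K → (v.1 : ℕ) = t1 + k → Df (tr N' t1 y k) (tr N' t1 y1 k) v.2
  have hEt : ∀ (t : Fin (m + 1)) k, k ≤ K → (t : ℕ) = t1 + k →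
      (fun i => E (t, i)) = tr N' t1 y k := by
    intro t k hk ht
    funext i
    have hte : t = ⟨t1 + k, by omega⟩ := Fin.ext ht
    rw [hte]
    exact hE k hk i
  have hstep : ∀ b c, P b → Rel N' E b c → P c := by
    rintro b c ⟨h1, h2⟩ ⟨h3, h4⟩
    refine ⟨by omega, fun k hk hk2 => ?_⟩
    obtain ⟨k', hk'⟩ : ∃ k', k = k' + 1 := ⟨k - 1, by omega⟩
    subst hk'
    have h5 := h2 k' (by omega) (by omega)
    rw [hEt b.1 k' (by omega) (by omega)] at h4
    rw [← h4]
    have h6 : (b.1 : ℕ) = t1 + k' := by omega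
    rw [h6]
    exact df_nxt (hN' _) (hle k') h5
  have hpath : ∀ u v, ReflTransGen (Rel N' E) u v → P u → P v := by
    intro u v huv hu
    induction huv with
    | refl => exact hu
    | tail _ hbc ih => exact hstep _ _ ih hbc
  -- upper bound
  have hup : ∀ r (v : Nd n m), A r v = true → P v := by
    intro r
    induction r with
    | zero => intro v hv; exact absurd hv (by simp [hA])
    | succ r ih =>
      intro v hv
      obtain ⟨u, hu, huv⟩ := (hAs r v).1 hv
      refine hpath u v huv ?_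
      rcases hu with hu | hu
      · obtain ⟨h1, h2⟩ := (hsrc u).1 hu
        refine ⟨h1.ge, fun k hk hk2 => ?_⟩
        have : k = 0 := by omega
        subst this
        exact h2
      · by_cases h0 : 0 < (u.1 : ℕ)
        · obtain ⟨t, ht⟩ := Nat.exists_eq_succ_of_ne_zero (Nat.pos_iff_ne_zero.1 h0)
          have htm : t < m := by have := u.1.isLt; omega
          have hue : u = (⟨t + 1, by omega⟩, u.2) := Prod.ext (Fin.ext ht) rfl
          rw [hue] at hu
          obtain ⟨h1, h2, h3⟩ := (colE_iff hz sw (A r) t htm u.2).1 hu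
          obtain ⟨a1, a2⟩ := ih _ h2
          obtain ⟨b1, b2⟩ := ih _ h3
          refine ⟨by simp only at a1; omega, fun k hk hk2 => ?_⟩
          simp only at a1
          obtain ⟨k', hk'⟩ : ∃ k', k = k' + 1 := ⟨k - 1, by omega⟩
          subst hk'
          have a3 := a2 k' (by omega) (by simp only; omega)
          have b3 := b2 k' (by omega) (by simp only; omega)
          have hte : t = t1 + k' := by omega
          subst hte
          exact df_both (hN' _) a3 b3 h1
        · exfalso
          unfold colE at hu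
          rw [dif_neg h0] at hu
          exact Bool.noConfusion hu
  -- lower bound
  have hext : ∀ r u v, A r u = true → Rel N' E u v → A r v = true := by
    intro r u v hu huv
    cases r with
    | zero => exact absurd hu (by simp [hA])
    | succ r =>
      obtain ⟨w, hw, hwu⟩ := (hAs r u).1 hu
      exact (hAs r v).2 ⟨w, hw, hwu.tail huv⟩
  have hlow : ∀ k (hk : k ≤ K) r i, Df (tr N' t1 y k) (tr N' t1 y1 k) i →
      lab N' t1 y y1 k i < r → A r (⟨t1 + k, by omega⟩, i) = true := by
    intro k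
    induction k with
    | zero =>
      intro hk r i hi hr
      obtain ⟨r', rfl⟩ : ∃ r', r = r' + 1 := ⟨r - 1, by omega⟩
      exact (hAs r' (⟨t1, by omega⟩, i)).2
        ⟨(⟨t1, by omega⟩, i), Or.inl ((hsrc (⟨t1, by omega⟩, i)).2 ⟨rfl, hi⟩),
          ReflTransGen.refl⟩
    | succ k ih =>
      intro hk r j hj hr
      have hlt : t1 + k < m := by omega
      rcases df_origin (hN' (t1 + k)) (hle k) (lab N' t1 y y1 k) hj with
        ⟨i, hi, hij, hl⟩ | ⟨h1, h2, hj', hl⟩
      · have h3 : lab N' t1 y y1 (k + 1) j = lab N' t1 y y1 k i := hl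
        have h4 := ih (by omega) r i hi (by omega)
        refine hext r _ _ h4 ⟨rfl, ?_⟩
        simp only
        rw [hEt ⟨t1 + k, by omega⟩ k (by omega) rfl]
        exact hij
      · have h3 : lab N' t1 y y1 (k + 1) j =
          max (lab N' t1 y y1 k (N' (t1 + k)).1) (lab N' t1 y y1 k (N' (t1 + k)).2) + 1 := hl
        obtain ⟨r', rfl⟩ : ∃ r', r = r' + 1 := ⟨r - 1, by omega⟩
        have h4 := ih (by omega) r' _ h1 (by
          have := le_max_left (lab N' t1 y y1 k (N' (t1 + k)).1)
            (lab N' t1 y y1 k (N' (t1 + k)).2)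
          omega)
        have h5 := ih (by omega) r' _ h2 (by
          have := le_max_right (lab N' t1 y y1 k (N' (t1 + k)).1)
            (lab N' t1 y y1 k (N' (t1 + k)).2)
          omega)
        refine (hAs r' _).2 ⟨_, Or.inr ?_, ReflTransGen.refl⟩
        exact (colE_iff hz sw (A r') (t1 + k) hlt j).2 ⟨hj', h4, h5⟩
  intro k hk i
  have h1 : hopE sw t1 L R z Y E (⟨t1 + k, by omega⟩, i) =
      (E (⟨t1 + k, by omega⟩, i) || A (R + 1) (⟨t1 + k, by omega⟩, i)) := rfl
  rw [h1, hE k hk i]
  by_cases hd : Df (tr N' t1 y k) (tr N' t1 y1 k) i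
  · rw [hlow k hk (R + 1) i hd (Nat.lt_succ_of_le (hlab k hk i hd)), hd.1]
    simp
  · have h2 : A (R + 1) (⟨t1 + k, by omega⟩, i) = false := by
      by_contra hcon
      have h3 : A (R + 1) (⟨t1 + k, by omega⟩, i) = true := by simpa using hcon
      exact hd ((hup _ _ h3).2 k hk rfl)
    rw [h2, Bool.or_false]
    have h3 := hle k i
    unfold Df at hd
    revert h3 hd
    cases tr N' t1 y k i <;> cases tr N' t1 y1 k i <;> simp

end Pool.Agent.LibCCR
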