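import Mathlib

/-!
Averages over a window of independent uniform coordinates.
-/

namespace Pool.Agent.LibCCR

variable {P : Type} [Fintype P]

/-- The average of `F` over the coordinates `a, …, a + k - 1`. -/
noncomputable def Ew : ℕ → ℕ → ((ℕ → P) → ℝ) → (ℕ → P) → ℝ
  | _, 0, F, ω => F ω
  | a, k + 1, F, ω => (∑ g : P, Ew (a + 1) k F (Function.update ω a g)) / Fintype.card P

/-- `F` depends only on the coordinates before `a`. -/
def Ad {β : Type} (a : ℕ) (F : (ℕ → P) → β) : Prop :=
  ∀ ω ω' : ℕ → P, (∀ t < a, ω t = ω' t) → F ω = F ω'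

omit [Fintype P] in
theorem Ad.mono {β : Type} {a b : ℕ} {F : (ℕ → P) → β} (h : Ad a F) (hab : a ≤ b) : Ad b F :=
  fun ω ω' h' => h ω ω' (fun t ht => h' t (by omega))

theorem Ew_add (a k l : ℕ) (F : (ℕ → P) → ℝ) (ω : ℕ → P) :
    Ew a (k + l) F ω = Ew a k (Ew (a + k) l F) ω := by
  induction k generalizing a ω with
  | zero => simp [Ew]
  | succ k ih =>
    have e : k + 1 + l = (k + l) + 1 := by ring
    rw [e]
    simp only [Ew]
    congr 1
    refine Finset.sum_congr rfl fun g _ => ?_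
    rw [ih]
    have e2 : a + 1 + k = a + (k + 1) := by ring
    rw [e2]

/-- `F` only matters on the points which agree with `ω` before `a`. -/
theorem Ew_le (a k : ℕ) (F G : (ℕ → P) → ℝ) (ω : ℕ → P)
    (h : ∀ ω', (∀ t < a, ω' t = ω t) → F ω' ≤ G ω') : Ew a k F ω ≤ Ew a k G ω := by
  induction k generalizing a ω with
  | zero => exact h ω (fun _ _ => rfl)
  | succ k ih =>
    simp only [Ew]
    refine div_le_div_of_nonneg_right ?_ (Nat.cast_nonneg _)
    refine Finset.sum_le_sum fun g _ => ih (a + 1) _ fun ω' hω' => h ω' fun t ht => ?_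
    rw [hω' t (by omega), Function.update_of_ne (by omega)]

theorem Ew_congr (a k : ℕ) (F G : (ℕ → P) → ℝ) (ω : ℕ → P)
    (h : ∀ ω', (∀ t < a, ω' t = ω t) → F ω' = G ω') : Ew a k F ω = Ew a k G ω :=
  le_antisymm (Ew_le a k F G ω fun ω' hω' => (h ω' hω').le)
    (Ew_le a k G F ω fun ω' hω' => (h ω' hω').ge)

theorem Ew_sum {ι : Type} (s : Finset ι) (a k : ℕ) (F : ι → (ℕ → P) → ℝ) (ω : ℕ → P) :
    Ew a k (fun ω => ∑ i ∈ s, F i ω) ω = ∑ i ∈ s, Ew a k (F i) ω := by
  induction k generalizing a ω with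
  | zero => rfl
  | succ k ih =>
    simp only [Ew]
    rw [← Finset.sum_div, Finset.sum_comm]
    congr 1
    exact Finset.sum_congr rfl fun g _ => ih (a + 1) _

theorem Ew_plus (a k : ℕ) (F G : (ℕ → P) → ℝ) (ω : ℕ → P) :
    Ew a k (fun ω => F ω + G ω) ω = Ew a k F ω + Ew a k G ω := by
  induction k generalizing a ω with
  | zero => rfl
  | succ k ih =>
    simp only [Ew]
    rw [← add_div, ← Finset.sum_add_distrib]
    congr 1
    exact Finset.sum_congr rfl fun g _ => ih (a + 1) _

theorem Ew_mul (a k : ℕ) (c : ℝ) (F : (ℕ → P) → ℝ) (ω : ℕ → P) :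
    Ew a k (fun ω => c * F ω) ω = c * Ew a k F ω := by
  induction k generalizing a ω with
  | zero => rfl
  | succ k ih =>
    simp only [Ew]
    rw [mul_div_assoc', Finset.mul_sum]
    congr 1
    exact Finset.sum_congr rfl fun g _ => ih (a + 1) _

variable [Nonempty P]

theorem Ew_const (a k : ℕ) (c : ℝ) (ω : ℕ → P) : Ew a k (fun _ => c) ω = c := by
  induction k generalizing a ω with
  | zero => rfl
  | succ k ih =>
    simp only [Ew, ih]
    rw [Finset.sum_const, Finset.card_univ, nsmul_eq_mul]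
    have : (Fintype.card P : ℝ) ≠ 0 := Nat.cast_ne_zero.2 Fintype.card_ne_zero
    field_simp

theorem Ew_ad (a k : ℕ) (F : (ℕ → P) → ℝ) (hF : Ad a F) (ω : ℕ → P) : Ew a k F ω = F ω := by
  rw [Ew_congr a k F (fun _ => F ω) ω fun ω' hω' => hF ω' ω hω', Ew_const]

theorem Ew_le_const (a k : ℕ) (F : (ℕ → P) → ℝ) (ω : ℕ → P) (c : ℝ)
    (h : ∀ ω', (∀ t < a, ω' t = ω t) → F ω' ≤ c) : Ew a k F ω ≤ c := by
  have := Ew_le a k F (fun _ => c) ω h
  rwa [Ew_const] at this

/-- Extension of a finite sequence. -/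
def ext (m : ℕ) (ω0 : ℕ → P) (ω : Fin m → P) (t : ℕ) : P :=
  if h : t < m then ω ⟨t, h⟩ else ω0 t

/-- The sequence `g` placed at the positions `a, …, a + k - 1`. -/
def spl (a k : ℕ) (ω : ℕ → P) (g : Fin k → P) (t : ℕ) : P :=
  if h : a ≤ t ∧ t < a + k then g ⟨t - a, by omega⟩ else ω t

theorem sum_spl (a k : ℕ) (F : (ℕ → P) → ℝ) (ω : ℕ → P) :
    ∑ g : Fin k → P, F (spl a k ω g) = (Fintype.card P : ℝ) ^ k * Ew a k F ω := by
  have hc : (Fintype.card P : ℝ) ≠ 0 := Nat.cast_ne_zero.2 Fintype.card_ne_zero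
  induction k generalizing a ω with
  | zero =>
    have h1 : ∀ g : Fin 0 → P, spl a 0 ω g = ω := by
      intro g
      funext t
      unfold spl
      rw [dif_neg (by omega)]
    simp only [h1, Ew, pow_zero, one_mul]
    simp
  | succ k ih =>
    rw [← (Fin.consEquiv (fun _ : Fin (k + 1) => P)).sum_comp, Fintype.sum_prod_type]
    have h1 : ∀ (g : P) (g' : Fin k → P), spl a (k + 1) ω
        ((Fin.consEquiv (fun _ : Fin (k + 1) => P)) (g, g')) =
          spl (a + 1) k (Function.update ω a g) g' := by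
      intro g g'
      funext t
      unfold spl
      by_cases h2 : t = a
      · subst h2
        rw [dif_pos (by omega), dif_neg (by omega), Function.update_self]
        have : (⟨t - t, by omega⟩ : Fin (k + 1)) = 0 := by
          apply Fin.ext
          simp
        rw [this]
        rfl
      · by_cases h3 : a ≤ t ∧ t < a + (k + 1)
        · rw [dif_pos h3, dif_pos (by omega)]
          have : (⟨t - a, by omega⟩ : Fin (k + 1)) = Fin.succ ⟨t - (a + 1), by omega⟩ := by
            apply Fin.ext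
            simp only [Fin.val_succ]
            omega
          rw [this]
          rfl
        · rw [dif_neg h3, dif_neg (by omega), Function.update_of_ne h2]
    simp only [h1]
    simp only [Ew]
    rw [Finset.sum_congr rfl fun g _ => ih (a + 1) (Function.update ω a g), ← Finset.mul_sum,
      pow_succ]
    field_simp

theorem sum_ext (m : ℕ) (ω0 : ℕ → P) (F : (ℕ → P) → ℝ) :
    ∑ ω : Fin m → P, F (ext m ω0 ω) = (Fintype.card P : ℝ) ^ m * Ew 0 m F ω0 := by
  rw [← sum_spl]
  refine Finset.sum_congr rfl fun ω _ => ?_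
  congr 1
  funext t
  unfold ext spl
  by_cases h : t < m
  · rw [dif_pos h, dif_pos (by omega)]
    rfl
  · rw [dif_neg h, dif_neg (by omega)]

end Pool.Agent.LibCCR
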