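import Pool.Agent.LibCCR.Table

/-!
Depth and size of the algorithm.
-/

namespace Pool.Agent.LibCCR

open Relation Pool.Agent.LibCC

variable {n m : ℕ} {X : Type}

theorem lev_copy {α β : Type} [Fintype β] {W d : ℕ} {f : (α → Bool) → β → Bool}
    (hW : Fintype.card β ≤ W) (h : Lev α W d β f) (k : ℕ) : Lev α W (d + k) β f := by
  induction k with
  | zero => exact h
  | succ k ih => exact Lev.step ih β hW (fun c => .wire (Sum.inr c))

/-- Apply transformations to all copies of a state. -/
def parV {V σ τ : Type} (F : V → (σ → Bool) → τ → Bool) (s : V × σ → Bool) : V × τ → Bool :=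
  fun p => F p.1 (fun t => s (p.1, t)) p.2

theorem lev_parV {α V σ τ : Type} [Fintype V] [Fintype τ] {W d k : ℕ}
    (F : (α → Bool) → V → (σ → Bool) → τ → Bool)
    (hF : ∀ (v : V) (t : τ), FD k (fun y : α ⊕ (V × σ) → Bool =>
      F (fun a => y (Sum.inl a)) v (fun b => y (Sum.inr (v, b))) t))
    (hW : Fintype.card (V × τ) * 2 ^ k ≤ W) {f : (α → Bool) → V × σ → Bool}
    (h : Lev α W d (V × σ) f) :
    Lev α W (d + k + 1) (V × τ) (fun x => parV (F x) (f x)) := by
  exact Lev.formula (k := k) (γ := V × τ)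
    (fun p (y : α ⊕ (V × σ) → Bool) => F (fun a => y (Sum.inl a)) p.1
      (fun b => y (Sum.inr (p.1, b))) p.2) (fun p => hF p.1 p.2) hW h

/-! ### Formulas -/

theorem fd_getB {L : ℕ} (hL : Fintype.card (Fin n) ≤ 2 ^ L) (si yi : Fin n → X) :
    FD (1 + L) (fun y : X → Bool => getB (fun k => y (si k)) (fun k => y (yi k))) := by
  have h := FD.exists (k := 1) L hL (fun (k : Fin n) (y : X → Bool) => y (si k) && y (yi k))
    (fun k => (FD.var 0 _).and (FD.var 0 _))
  refine h.congr (fun y => ?_)
  unfold getB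
  rw [Bool.eq_iff_iff]
  simp

theorem fd_nxB {L : ℕ} (hL : Fintype.card (Fin n) ≤ 2 ^ L) (li hi yi : Fin n → X)
    (i j : Fin n) :
    FD (8 + L) (fun y : X → Bool => nxB (fun k => y (li k)) (fun k => y (hi k))
      (fun k => y (yi k)) i j) := by
  have h1 := fd_getB hL li yi
  have h2 := fd_getB hL hi yi
  have g1 : FD (5 + L) (fun y : X → Bool => y (li i) &&
      ((getB (fun k => y (hi k)) (fun k => y (yi k)) && y (li j)) ||
      (!getB (fun k => y (hi k)) (fun k => y (yi k)) && y (hi j)))) :=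
    ((FD.var (4 + L) _).and ((((h2.and (FD.var _ _)).mono (by omega)).or
      ((h2.neg.and (FD.var _ _)).mono (l := 3 + L) (by omega))).mono (by omega))).mono (by omega)
  have g2 : FD (5 + L) (fun y : X → Bool => (!y (li i) && y (hi i)) &&
      ((getB (fun k => y (li k)) (fun k => y (yi k)) && y (li j)) ||
      (!getB (fun k => y (li k)) (fun k => y (yi k)) && y (hi j)))) :=
    ((((FD.var 0 _).neg.and (FD.var 1 _)).mono (l := 4 + L) (by omega)).and
      ((((h1.and (FD.var _ _)).mono (by omega)).or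
      ((h1.neg.and (FD.var _ _)).mono (l := 3 + L) (by omega))).mono (by omega))).mono (by omega)
  have g3 : FD (6 + L) (fun y : X → Bool => (!y (li i) && !y (hi i)) && decide (i = j)) :=
    ((((FD.var 0 _).neg.and (FD.var 0 _).neg).mono (l := 5 + L) (by omega)).and
      (FD.const _ _)).mono (by omega)
  have g4 : FD (7 + L) (fun y : X → Bool =>
      ((!y (li i) && y (hi i)) &&
      ((getB (fun k => y (li k)) (fun k => y (yi k)) && y (li j)) ||
      (!getB (fun k => y (li k)) (fun k => y (yi k)) && y (hi j)))) ||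
      ((!y (li i) && !y (hi i)) && decide (i = j))) :=
    ((g2.mono (by omega)).or g3).mono (by omega)
  exact ((g1.mono (l := 7 + L) (by omega)).or g4).mono (by omega)

theorem fd_cmpB {L : ℕ} (hL : Fintype.card (Fin n) ≤ 2 ^ L) (li hi yi : Fin n → X)
    (i : Fin n) :
    FD (5 + L) (fun y : X → Bool => cmpB (fun k => y (li k)) (fun k => y (hi k))
      (fun k => y (yi k)) i) := by
  have h1 := fd_getB hL li yi
  have h2 := fd_getB hL hi yi
  have g1 : FD (4 + L) (fun y : X → Bool => y (li i) &&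
      (getB (fun k => y (li k)) (fun k => y (yi k)) &&
        getB (fun k => y (hi k)) (fun k => y (yi k)))) :=
    ((FD.var (2 + L) _).and ((h1.and h2).mono (by omega))).mono (by omega)
  have g2 : FD (3 + L) (fun y : X → Bool => (!y (li i) && y (hi i)) &&
      (getB (fun k => y (li k)) (fun k => y (yi k)) ||
        getB (fun k => y (hi k)) (fun k => y (yi k)))) :=
    ((((FD.var 0 _).neg.and (FD.var 1 _)).mono (l := 2 + L) (by omega)).and
      ((h1.or h2).mono (by omega))).mono (by omega)
  have g3 : FD (3 + L) (fun y : X → Bool => (!y (li i) && !y (hi i)) && y (yi i)) :=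
    (((FD.var 0 _).neg.and (FD.var 0 _).neg).and (FD.var 2 _)).mono (by omega)
  have g4 : FD (4 + L) (fun y : X → Bool =>
      ((!y (li i) && y (hi i)) &&
      (getB (fun k => y (li k)) (fun k => y (yi k)) ||
        getB (fun k => y (hi k)) (fun k => y (yi k)))) ||
      ((!y (li i) && !y (hi i)) && y (yi i))) := (g2.or g3).mono (by omega)
  exact (g1.or g4).mono (by omega)

theorem fd_matE {L : ℕ} (hL : Fintype.card (Fin n) ≤ 2 ^ L) (sw : Bool)
    (zi : Bit n m → X) (Ei : Nd n m → X) (q : Nd n m × Nd n m) :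
    FD (9 + L) (fun y : X → Bool => matE sw (fun a => y (zi a)) (fun v => y (Ei v)) q) := by
  unfold matE
  refine FD.mono (k := 8 + L + 1) (FD.or (FD.const _ _) ?_) (by omega)
  by_cases h : (q.1.1 : ℕ) < m ∧ (q.2.1 : ℕ) = q.1.1 + 1
  · simp only [dif_pos h]
    exact fd_nxB hL (fun i => zi (.gate ⟨q.1.1, h.1⟩ (if sw then !false else false) i))
      (fun i => zi (.gate ⟨q.1.1, h.1⟩ (if sw then !true else true) i))
      (fun k => Ei (q.1.1, k)) q.1.2 q.2.2
  · simp only [dif_neg h]
    exact FD.const _ _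

theorem fd_colE {L : ℕ} (hL : Fintype.card (Fin n) ≤ 2 ^ L) (sw : Bool)
    (zi : Bit n m → X) (Ai : Nd n m → X) (u : Nd n m) :
    FD (3 + L) (fun y : X → Bool => colE sw (fun a => y (zi a)) (fun v => y (Ai v)) u) := by
  unfold colE
  by_cases h : 0 < (u.1 : ℕ)
  · simp only [dif_pos h]
    have h1 := fd_getB hL
      (fun i => zi (.gate ⟨u.1 - 1, by have := u.1.isLt; omega⟩ (if sw then !false else false) i))
      (fun k => Ai (⟨u.1 - 1, by have := u.1.isLt; omega⟩, k))
    have h2 := fd_getB hL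
      (fun i => zi (.gate ⟨u.1 - 1, by have := u.1.isLt; omega⟩ (if sw then !true else true) i))
      (fun k => Ai (⟨u.1 - 1, by have := u.1.isLt; omega⟩, k))
    exact ((((FD.var 0 _).or (FD.var 0 _)).mono (l := 2 + L) (by omega)).and
      ((h1.and h2).mono (by omega))).mono (by omega)
  · simp only [dif_neg h]
    exact FD.const _ _

theorem fd_srcE (sw : Bool) (t1 : ℕ) (Yi Ei : Nd n m → X) (u : Nd n m) :
    FD 3 (fun y : X → Bool => srcE sw t1 (fun v => y (Yi v)) (fun v => y (Ei v)) u) := by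
  unfold srcE
  cases sw
  · exact (FD.const 2 _).and ((FD.var 1 _).and (FD.var 0 _).neg)
  · exact (FD.const 2 _).and ((FD.var 0 _).neg.and (FD.var 0 _).neg)

/-! ### One hop -/

/-- Histories `Y` and `E`. -/
abbrev S2 (n m : ℕ) : Type := Nd n m ⊕ Nd n m
/-- Histories and a matrix. -/
abbrev S3 (n m : ℕ) : Type := S2 n m ⊕ (Nd n m × Nd n m)
/-- Histories, a matrix and a set of nodes. -/
abbrev S4 (n m : ℕ) : Type := S3 n m ⊕ Nd n m

def p3 (sw : Bool) (z : Bit n m → Bool) (s : S2 n m → Bool) : S3 n m → Bool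
  | Sum.inl t => s t
  | Sum.inr q => matE sw z (fun v => s (Sum.inr v)) q

def sq3 (s : S3 n m → Bool) : S3 n m → Bool
  | Sum.inl t => s (Sum.inl t)
  | Sum.inr p => sq (fun q => s (Sum.inr q)) p

def p4 (s : S3 n m → Bool) : S4 n m → Bool
  | Sum.inl t => s t
  | Sum.inr _ => false

def rnd4 (sw : Bool) (t1 : ℕ) (z : Bit n m → Bool) (s : S4 n m → Bool) : S4 n m → Bool
  | Sum.inl t => s (Sum.inl t)
  | Sum.inr v => rndE sw t1 z (fun v => s (Sum.inl (Sum.inl (Sum.inl v))))
      (fun v => s (Sum.inl (Sum.inl (Sum.inr v)))) (fun q => s (Sum.inl (Sum.inr q)))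
      (fun v => s (Sum.inr v)) v

def end4 (s : S4 n m → Bool) : S2 n m → Bool
  | Sum.inl v => s (Sum.inl (Sum.inl (Sum.inl v)))
  | Sum.inr v => !(s (Sum.inl (Sum.inl (Sum.inr v))) || s (Sum.inr v))

def hopS (sw : Bool) (t1 L R : ℕ) (z : Bit n m → Bool) (s : S2 n m → Bool) : S2 n m → Bool :=
  end4 ((rnd4 sw t1 z)^[R + 1] (p4 (sq3^[L] (p3 sw z s))))

theorem sq3_iterate (L : ℕ) (s : S3 n m → Bool) :
    sq3^[L] s = Sum.elim (fun t => s (Sum.inl t)) (sq^[L] (fun q => s (Sum.inr q))) := by
  induction L generalizing s with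
  | zero => funext t; cases t <;> rfl
  | succ L ih =>
    rw [Function.iterate_succ_apply, ih, Function.iterate_succ_apply]
    rfl

theorem rnd4_iterate (sw : Bool) (t1 k : ℕ) (z : Bit n m → Bool) (s : S4 n m → Bool) :
    (rnd4 sw t1 z)^[k] s = Sum.elim (fun t => s (Sum.inl t))
      ((rndE sw t1 z (fun v => s (Sum.inl (Sum.inl (Sum.inl v))))
        (fun v => s (Sum.inl (Sum.inl (Sum.inr v)))) (fun q => s (Sum.inl (Sum.inr q))))^[k]
        (fun v => s (Sum.inr v))) := by
  induction k generalizing s with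
  | zero => funext t; cases t <;> rfl
  | succ k ih =>
    rw [Function.iterate_succ_apply, ih, Function.iterate_succ_apply]
    rfl

theorem hopS_eq (sw : Bool) (t1 L R : ℕ) (z : Bit n m → Bool) (s : S2 n m → Bool) :
    hopS sw t1 L R z s = Sum.elim (fun v => s (Sum.inl v))
      (fun v => !(hopE sw t1 L R z (fun v => s (Sum.inl v)) (fun v => s (Sum.inr v)) v)) := by
  unfold hopS
  rw [rnd4_iterate, sq3_iterate]
  funext t
  cases t <;> rfl

def hopDepth (L R : ℕ) : ℕ := (9 + L + 1) + L * (L + 2) + 1 + (R + 1) * (2 * L + 6) + 3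

theorem lev_hopS {V : Type} [Fintype V] (sw : Bool) (t1 : V → ℕ) {W L R d : ℕ}
    (hL1 : Fintype.card (Fin n) ≤ 2 ^ L) (hL2 : Fintype.card (Nd n m) ≤ 2 ^ L)
    (hW : Fintype.card (V × S4 n m) * 2 ^ (2 * L + 9) ≤ W)
    {f : (Bit n m → Bool) → V × S2 n m → Bool}
    (h : Lev (Bit n m) W d (V × S2 n m) f) :
    Lev (Bit n m) W (d + hopDepth L R) (V × S2 n m)
      (fun x => parV (fun v => hopS sw (t1 v) L R x) (f x)) := by
  have hWk : ∀ k, k ≤ 2 * L + 9 → Fintype.card (V × S4 n m) * 2 ^ k ≤ W := fun k hk =>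
    le_trans (Nat.mul_le_mul_left _ (Nat.pow_le_pow_right (by norm_num) hk)) hW
  have hWk3 : ∀ k, k ≤ 2 * L + 9 → Fintype.card (V × S3 n m) * 2 ^ k ≤ W := fun k hk => by
    refine le_trans (Nat.mul_le_mul_right _ ?_) (hWk k hk)
    simp only [Fintype.card_prod, Fintype.card_sum]
    exact Nat.mul_le_mul_left _ (by omega)
  have hWk2 : ∀ k, k ≤ 2 * L + 9 → Fintype.card (V × S2 n m) * 2 ^ k ≤ W := fun k hk => by
    refine le_trans (Nat.mul_le_mul_right _ ?_) (hWk k hk)
    simp only [Fintype.card_prod, Fintype.card_sum]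
    exact Nat.mul_le_mul_left _ (by omega)
  have h1 : Lev (Bit n m) W (d + (9 + L) + 1) (V × S3 n m)
      (fun x => parV (fun _ => p3 sw x) (f x)) := by
    refine lev_parV (k := 9 + L) (fun x _ s => p3 sw x s) ?_ (hWk3 _ (by omega)) h
    rintro v (t | q)
    · exact FD.var _ _
    · exact fd_matE hL1 (X := Bit n m ⊕ (V × S2 n m)) sw Sum.inl
        (fun v' => Sum.inr (v, Sum.inr v')) q
  have h2 : ∀ (r d : ℕ) (f : (Bit n m → Bool) → V × S3 n m → Bool),
      Lev (Bit n m) W d (V × S3 n m) f →
      Lev (Bit n m) W (d + r * (L + 2)) (V × S3 n m)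
        (fun x => parV (fun _ => sq3^[r]) (f x)) := by
    intro r
    induction r with
    | zero =>
      intro d f h
      have e : (fun x => parV (V := V) (fun _ => sq3 (n := n) (m := m)^[0]) (f x)) = f := rfl
      rw [e]
      simpa using h
    | succ r ih =>
      intro d f h
      have h4 := ih d f h
      have h5 : Lev (Bit n m) W (d + r * (L + 2) + (1 + L) + 1) (V × S3 n m)
          (fun x => parV (fun _ => sq3) (parV (fun _ => sq3^[r]) (f x))) := by
        refine lev_parV (k := 1 + L) (fun _ _ s => sq3 s) ?_ (hWk3 _ (by omega)) h4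
        rintro v (t | ⟨e, f⟩)
        · exact FD.var _ _
        · have := FD.exists (k := 1) L hL2
            (fun (h : Nd n m) (y : Bit n m ⊕ (V × S3 n m) → Bool) =>
            (y (Sum.inr (v, Sum.inr (e, h))) && y (Sum.inr (v, Sum.inr (h, f)))))
            (fun _ => (FD.var 0 _).and (FD.var 0 _))
          exact this
      have e : d + r * (L + 2) + (1 + L) + 1 = d + (r + 1) * (L + 2) := by ring
      rw [e] at h5
      have e2 : (fun x => parV (V := V) (fun _ => sq3 (n := n) (m := m)^[r + 1]) (f x)) =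
          fun x => parV (fun _ => sq3) (parV (fun _ => sq3^[r]) (f x)) := by
        funext x p
        simp only [parV]
        rw [Function.iterate_succ_apply']
      rw [e2]
      exact h5
  have h3 := h2 L _ _ h1
  have h4 : Lev (Bit n m) W (d + (9 + L) + 1 + L * (L + 2) + 0 + 1) (V × S4 n m)
      (fun x => parV (fun _ => p4) (parV (fun _ => sq3^[L]) (parV (fun _ => p3 sw x) (f x)))) := by
    refine lev_parV (k := 0) (fun _ _ s => p4 s) ?_ (hWk _ (by omega)) h3
    rintro v (t | q)
    · exact FD.var _ _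
    · exact FD.const _ _
  have h5 : ∀ (r d : ℕ) (f : (Bit n m → Bool) → V × S4 n m → Bool),
      Lev (Bit n m) W d (V × S4 n m) f →
      Lev (Bit n m) W (d + r * (2 * L + 6)) (V × S4 n m)
        (fun x => parV (fun v => (rnd4 sw (t1 v) x)^[r]) (f x)) := by
    intro r
    induction r with
    | zero =>
      intro d f h
      have e : (fun x => parV (V := V) (fun v => (rnd4 (n := n) (m := m) sw (t1 v) x)^[0])
          (f x)) = f := rfl
      rw [e]
      simpa using h
    | succ r ih =>
      intro d f h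
      have h4 := ih d f h
      have h5 : Lev (Bit n m) W (d + r * (2 * L + 6) + (2 * L + 5) + 1) (V × S4 n m)
          (fun x => parV (fun v => rnd4 sw (t1 v) x)
            (parV (fun v => (rnd4 sw (t1 v) x)^[r]) (f x))) := by
        refine lev_parV (k := 2 * L + 5) (fun x v s => rnd4 sw (t1 v) x s) ?_
          (hWk _ (by omega)) h4
        rintro v (t | w)
        · exact FD.var _ _
        · have hs : ∀ u : Nd n m, FD (5 + L) (fun (y : Bit n m ⊕ (V × S4 n m) → Bool) =>
              ((srcE sw (t1 v)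
                  (fun v' => y (Sum.inr (v, Sum.inl (Sum.inl (Sum.inl v')))))
                  (fun v' => y (Sum.inr (v, Sum.inl (Sum.inl (Sum.inr v'))))) u ||
                colE sw (fun a => y (Sum.inl a)) (fun v' => y (Sum.inr (v, Sum.inr v'))) u) &&
              y (Sum.inr (v, Sum.inl (Sum.inr (u, w)))))) := by
            intro u
            have a1 := fd_srcE (X := Bit n m ⊕ (V × S4 n m)) sw (t1 v)
              (fun v' => Sum.inr (v, Sum.inl (Sum.inl (Sum.inl v'))))
              (fun v' => Sum.inr (v, Sum.inl (Sum.inl (Sum.inr v')))) u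
            have a2 := fd_colE hL1 (X := Bit n m ⊕ (V × S4 n m)) sw Sum.inl
              (fun v' => Sum.inr (v, Sum.inr v')) u
            exact (((a1.mono (by omega)).or a2).and (FD.var _ _)).mono (by omega)
          have a3 := FD.exists (k := 5 + L) L hL2 _ hs
          exact a3.mono (by omega)
      have e : d + r * (2 * L + 6) + (2 * L + 5) + 1 = d + (r + 1) * (2 * L + 6) := by ring
      rw [e] at h5
      have e2 : (fun x => parV (V := V)
          (fun v => (rnd4 (n := n) (m := m) sw (t1 v) x)^[r + 1]) (f x)) =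
          fun x => parV (fun v => rnd4 sw (t1 v) x)
            (parV (fun v => (rnd4 sw (t1 v) x)^[r]) (f x)) := by
        funext x p
        simp only [parV]
        rw [Function.iterate_succ_apply']
      rw [e2]
      exact h5
  have h6 := h5 (R + 1) _ _ h4
  have h7 : Lev (Bit n m) W
      (d + (9 + L) + 1 + L * (L + 2) + 0 + 1 + (R + 1) * (2 * L + 6) + 2 + 1) (V × S2 n m)
      (fun x => parV (fun v => hopS sw (t1 v) L R x) (f x)) := by
    refine lev_parV (k := 2) (fun _ _ s => end4 s) ?_ (hWk2 _ (by omega)) h6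
    rintro v (t | t)
    · exact FD.var _ _
    · exact ((FD.var 0 _).or (FD.var 0 _)).neg
  have e : d + (9 + L) + 1 + L * (L + 2) + 0 + 1 + (R + 1) * (2 * L + 6) + 2 + 1 =
      d + hopDepth L R := by unfold hopDepth; ring
  rw [e] at h7
  exact h7

/-! ### The table -/

def stepDepth (L R : ℕ) : ℕ := 2 * hopDepth L R + 2

def pre2 (h : ℕ) (Y : Tb n m → Bool) : Fin (m + 1) × S2 n m → Bool
  | (τ, Sum.inl v) => Y (τ, v)
  | (τ, Sum.inr v) => Y (up h τ, v)

def post2 (l : ℕ) (s : Fin (m + 1) × S2 n m → Bool) : Tb n m → Bool := fun p =>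
  if (p.2.1 : ℕ) ≤ p.1 + l then s (p.1, Sum.inl p.2) else s (p.1, Sum.inr p.2)

theorem stepT_eq (L R l h : ℕ) (z : Bit n m → Bool) (Y : Tb n m → Bool) :
    stepT L R l h z Y = post2 l (parV (fun τ => hopS true ((τ : ℕ) + l) L R z)
      (parV (fun τ => hopS false ((τ : ℕ) + l) L R z) (pre2 h Y))) := by
  funext p
  unfold stepT post2 parV
  simp only [hopS_eq, Sum.elim_inl, Sum.elim_inr]
  rfl

theorem lev_stepT {W L R l h d : ℕ}
    (hL1 : Fintype.card (Fin n) ≤ 2 ^ L) (hL2 : Fintype.card (Nd n m) ≤ 2 ^ L)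
    (hW : Fintype.card (Fin (m + 1) × S4 n m) * 2 ^ (2 * L + 9) ≤ W)
    {f : (Bit n m → Bool) → Tb n m → Bool} (hf : Lev (Bit n m) W d (Tb n m) f) :
    Lev (Bit n m) W (d + stepDepth L R) (Tb n m) (fun x => stepT L R l h x (f x)) := by
  have hWS2 : Fintype.card (Fin (m + 1) × S2 n m) * 2 ^ 0 ≤ W := by
    refine le_trans (Nat.mul_le_mul ?_ (Nat.pow_le_pow_right (by norm_num) (Nat.zero_le _))) hW
    simp only [Fintype.card_prod, Fintype.card_sum]
    exact Nat.mul_le_mul_left _ (by omega)
  have hWT : Fintype.card (Tb n m) * 2 ^ 0 ≤ W := by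
    refine le_trans (Nat.mul_le_mul ?_ (Nat.pow_le_pow_right (by norm_num) (Nat.zero_le _))) hW
    simp only [Fintype.card_prod, Fintype.card_sum]
    exact Nat.mul_le_mul_left _ (by omega)
  have h1 : Lev (Bit n m) W (d + 0 + 1) (Fin (m + 1) × S2 n m) (fun x => pre2 h (f x)) := by
    have := Lev.formula (k := 0) (γ := Fin (m + 1) × S2 n m)
      (fun p (y : Bit n m ⊕ Tb n m → Bool) => pre2 h (fun q => y (Sum.inr q)) p)
      (by
        rintro ⟨τ, t | t⟩
        · exact FD.var _ _
        · exact FD.var _ _) hWS2 hf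
    exact this
  have h2 := lev_hopS (R := R) false (fun τ : Fin (m + 1) => (τ : ℕ) + l) hL1 hL2 hW h1
  have h3 := lev_hopS (R := R) true (fun τ : Fin (m + 1) => (τ : ℕ) + l) hL1 hL2 hW h2
  have h4 := Lev.formula (k := 0) (γ := Tb n m)
      (fun p (y : Bit n m ⊕ (Fin (m + 1) × S2 n m) → Bool) =>
        post2 l (fun q => y (Sum.inr q)) p)
      (by
        intro p
        by_cases hc : (p.2.1 : ℕ) ≤ p.1 + l
        · simp only [post2, if_pos hc]
          exact FD.var _ _
        · simp only [post2, if_neg hc]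
          exact FD.var _ _) hWT h3
  have e : d + 0 + 1 + hopDepth L R + hopDepth L R + 0 + 1 = d + stepDepth L R := by
    unfold stepDepth
    ring
  rw [e] at h4
  have e2 : (fun (x : Bit n m → Bool) => stepT L R l h x (f x)) =
      fun (x : Bit n m → Bool) (p : Tb n m) => post2 l (fun q =>
        Sum.elim x (parV (fun τ : Fin (m + 1) => hopS true ((τ : ℕ) + l) L R x)
          (parV (fun τ : Fin (m + 1) => hopS false ((τ : ℕ) + l) L R x)
            (pre2 h (f x)))) (Sum.inr q)) p := by
    funext x p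
    rw [stepT_eq]
    rfl
  rw [e2]
  exact h4

theorem lev_tabT {W L R : ℕ}
    (hL1 : Fintype.card (Fin n) ≤ 2 ^ L) (hL2 : Fintype.card (Nd n m) ≤ 2 ^ L)
    (hW : Fintype.card (Fin (m + 1) × S4 n m) * 2 ^ (2 * L + 9) ≤ W) (j : ℕ) :
    Lev (Bit n m) W (L + 6 + j * stepDepth L R) (Tb n m) (fun x => tabT L R x j) := by
  induction j with
  | zero =>
    have hWT : Fintype.card (Tb n m) * 2 ^ (5 + L) ≤ W := by
      refine le_trans (Nat.mul_le_mul ?_
        (Nat.pow_le_pow_right (by norm_num) (by omega : 5 + L ≤ 2 * L + 9))) hW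
      simp only [Fintype.card_prod, Fintype.card_sum]
      exact Nat.mul_le_mul_left _ (by omega)
    have h1 := Lev.formula (k := 5 + L) (γ := Tb n m)
      (fun p (y : Bit n m ⊕ Empty → Bool) => initT (fun a => y (Sum.inl a)) p)
      (by
        intro p
        unfold initT
        by_cases hc : (p.2.1 : ℕ) = p.1 + 1
        · simp only [dif_pos hc]
          exact fd_cmpB hL1 (X := Bit n m ⊕ Empty)
            (fun k => Sum.inl (.gate ⟨p.1, by have := p.2.1.isLt; omega⟩ false k))
            (fun k => Sum.inl (.gate ⟨p.1, by have := p.2.1.isLt; omega⟩ true k))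
            (fun k => Sum.inl (.src k)) p.2.2
        · simp only [dif_neg hc]
          exact FD.var _ _) hWT Lev.base
    have e : 0 + (5 + L) + 1 = L + 6 + 0 * stepDepth L R := by ring
    rw [e] at h1
    exact h1
  | succ j ih =>
    have h1 := lev_stepT (R := R) (l := ell j) (h := (ell j + 1) / 2) hL1 hL2 hW ih
    have e : L + 6 + j * stepDepth L R + stepDepth L R = L + 6 + (j + 1) * stepDepth L R := by
      ring
    rw [e] at h1
    exact h1

theorem fd_bxr {k : ℕ} {f g : (X → Bool) → Bool} (h : FD k f) (h' : FD k g) :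
    FD (k + 3) (fun x => bxr (f x) (g x)) := by
  have h1 := (h.mono (Nat.le_succ k)).and h'.neg
  have h2 := h.neg.and (h'.mono (Nat.le_succ k))
  exact (h1.or h2).mono (by omega)

def outV (z : Bit n m → Bool) (Y : Tb n m → Bool) : Option (Nd n m) → Bool
  | none => okV z Y
  | some v => Y (0, v)

theorem lev_out {W L R : ℕ}
    (hL1 : Fintype.card (Fin n) ≤ 2 ^ L) (hL2 : Fintype.card (Nd n m) ≤ 2 ^ L)
    (hW : Fintype.card (Fin (m + 1) × S4 n m) * 2 ^ (2 * L + 9) ≤ W)
    (hn : 0 < n) (j : ℕ) :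
    Lev (Bit n m) W (L + 6 + j * stepDepth L R + (2 * L + 9) + 1) (Option (Nd n m))
      (fun x => outV x (tabT L R x j)) := by
  have h1 := lev_tabT (R := R) hL1 hL2 hW j
  have hWo : Fintype.card (Option (Nd n m)) * 2 ^ (2 * L + 9) ≤ W := by
    refine le_trans (Nat.mul_le_mul_right _ ?_) hW
    have h3 : 0 < Fintype.card (Nd n m) := by
      simp only [Fintype.card_prod, Fintype.card_fin]
      exact Nat.mul_pos (Nat.succ_pos _) hn
    have e1 : Fintype.card (Fin (m + 1) × S4 n m) = (m + 1) *
        (Fintype.card (Nd n m) + Fintype.card (Nd n m) +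
          Fintype.card (Nd n m × Nd n m) + Fintype.card (Nd n m)) := by
      rw [Fintype.card_prod (Fin (m + 1)), Fintype.card_sum, Fintype.card_sum,
        Fintype.card_sum, Fintype.card_fin]
    rw [e1, Fintype.card_option]
    calc Fintype.card (Nd n m) + 1 ≤ Fintype.card (Nd n m) + Fintype.card (Nd n m) := by omega
      _ ≤ 1 * (Fintype.card (Nd n m) + Fintype.card (Nd n m) +
          Fintype.card (Nd n m × Nd n m) + Fintype.card (Nd n m)) := by omega
      _ ≤ _ := Nat.mul_le_mul_right _ (by omega)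
  exact Lev.formula (k := 2 * L + 9) (γ := Option (Nd n m))
    (fun p (y : Bit n m ⊕ Tb n m → Bool) =>
      outV (fun a => y (Sum.inl a)) (fun q => y (Sum.inr q)) p)
    (by
      rintro (_ | v)
      · have hb : ∀ u : Nd n m, FD (8 + L) (fun y : Bit n m ⊕ Tb n m → Bool =>
            badV (fun a => y (Sum.inl a)) (fun q => y (Sum.inr q)) u) := by
          intro u
          unfold badV
          by_cases hc : 0 < (u.1 : ℕ)
          · simp only [dif_pos hc]
            have h5 := fd_cmpB hL1 (X := Bit n m ⊕ Tb n m)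
              (fun k => Sum.inl (.gate ⟨u.1 - 1, by have := u.1.isLt; omega⟩ false k))
              (fun k => Sum.inl (.gate ⟨u.1 - 1, by have := u.1.isLt; omega⟩ true k))
              (fun k => Sum.inr (0, (⟨u.1 - 1, by have := u.1.isLt; omega⟩, k))) u.2
            exact (fd_bxr (FD.var _ _) h5).mono (by omega)
          · simp only [dif_neg hc]
            exact (fd_bxr (FD.var 0 _) (FD.var 0 _)).mono (by omega)
        have h6 := (FD.exists (k := 8 + L) L hL2 _ hb).neg
        exact h6.mono (by omega)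
      · exact FD.var _ _) hWo h1

end Pool.Agent.LibCCR
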