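import Pool.Agent.LibCCR.Main

/-!
Random comparator circuits are evaluated without errors by shallow circuits that rarely fail.
-/

namespace Pool.Agent.LibCCR

open Pool.Agent.LibCC

variable {n m : ℕ}

/-- The bits on the wires after `t` comparators (all `m` comparators if `t ≥ m`). -/
def wires (net : Fin m → Fin n × Fin n) (x : Fin n → Bool) : ℕ → Fin n → Bool
  | 0 => x
  | t + 1 => if h : t < m then cmp (net ⟨t, h⟩) (wires net x t) else wires net x t

/-- The description of a network and its input by bits. -/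
def describe (net : Fin m → Fin n × Fin n) (x : Fin n → Bool) : Bit n m → Bool
  | .gate t c i => decide ((if c then (net t).2 else (net t).1) = i)
  | .src i => x i

/-- The ordered pair `p`, exchanged if `b`. -/
def orient (b : Bool) (p : Fin n × Fin n) : Fin n × Fin n := if b then (p.2, p.1) else p

def netExt (net : Fin m → Fin n × Fin n) (p : Fin n × Fin n) (t : ℕ) : Fin n × Fin n :=
  if h : t < m then net ⟨t, h⟩ else p

theorem enc_describe (net : Fin m → Fin n × Fin n) (x : Fin n → Bool) (N : ℕ → Fin n × Fin n)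
    (hN : ∀ t : Fin m, N t = net t) : Enc (describe net x) N := by
  intro t c i
  simp only [describe, hN]

theorem wires_eq (net : Fin m → Fin n × Fin n) (x : Fin n → Bool) (N : ℕ → Fin n × Fin n)
    (hN : ∀ t : Fin m, N t = net t) (t : ℕ) (ht : t ≤ m) : tr N 0 x t = wires net x t := by
  induction t with
  | zero => rfl
  | succ t ih =>
    change cmp (N (0 + t)) (tr N 0 x t) = _
    rw [ih (by omega), Nat.zero_add, hN ⟨t, by omega⟩]
    simp only [wires]
    rw [dif_pos (by omega : t < m)]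

/-- The parameter `L`. -/
def lg (n m : ℕ) : ℕ := Nat.log 2 (n * (m + 1)) + 1

theorem lg_spec (n m : ℕ) (hn : 0 < n) :
    n * (m + 1) ≤ 2 ^ lg n m ∧ 2 ^ lg n m ≤ 2 * (n * (m + 1)) := by
  have h0 : n * (m + 1) ≠ 0 := by positivity
  refine ⟨(Nat.lt_pow_succ_log_self (by norm_num) _).le, ?_⟩
  unfold lg
  rw [pow_succ, mul_comm]
  exact Nat.mul_le_mul_left _ (Nat.pow_log_le_self 2 h0)

theorem width_le (n m : ℕ) (hn : 0 < n) :
    Fintype.card (Fin (m + 1) × S4 n m) * 2 ^ (2 * lg n m + 9) ≤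
      8192 * (n * (m + 1)) ^ 5 := by
  have h1 := (lg_spec n m hn).2
  have e1 : Fintype.card (Fin (m + 1) × S4 n m) = (m + 1) *
      ((m + 1) * n + (m + 1) * n + ((m + 1) * n) * ((m + 1) * n) + (m + 1) * n) := by
    rw [Fintype.card_prod (Fin (m + 1)), Fintype.card_sum, Fintype.card_sum,
      Fintype.card_sum, Fintype.card_prod (Nd n m), Fintype.card_prod, Fintype.card_fin,
      Fintype.card_fin]
  rw [e1]
  have e2 : (m + 1) * n = n * (m + 1) := mul_comm _ _
  rw [e2]
  have hNm : m + 1 ≤ n * (m + 1) := Nat.le_mul_of_pos_left _ hn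
  have hN1 : 1 ≤ n * (m + 1) := le_trans (Nat.succ_le_succ (Nat.zero_le m)) hNm
  set N := n * (m + 1) with hN
  have h2 : N + N + N * N + N ≤ 4 * N ^ 2 := by nlinarith
  have h3 : 2 ^ (2 * lg n m + 9) ≤ 2048 * N ^ 2 := by
    have e3 : 2 ^ (2 * lg n m + 9) = (2 ^ lg n m) ^ 2 * 512 := by
      rw [pow_add, ← pow_mul, mul_comm (lg n m) 2]
      norm_num
    rw [e3]
    have : (2 ^ lg n m) ^ 2 ≤ (2 * N) ^ 2 := Nat.pow_le_pow_left h1 2
    nlinarith
  calc (m + 1) * (N + N + N * N + N) * 2 ^ (2 * lg n m + 9)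
      ≤ N * (4 * N ^ 2) * (2048 * N ^ 2) :=
        Nat.mul_le_mul (Nat.mul_le_mul hNm h2) h3
    _ = 8192 * N ^ 5 := by ring

theorem depth_le (L r : ℕ) (hL : 1 ≤ L) :
    L + 6 + 2 * L * stepDepth L (19 * (r + 2 * L + 2) + L) + (2 * L + 9) + 1 ≤
      2600 * L ^ 2 * (L + r) := by
  have h1 : hopDepth L (19 * (r + 2 * L + 2) + L) ≤ 642 * L ^ 2 + 152 * (r * L) := by
    unfold hopDepth
    have h2 : L ≤ L ^ 2 := by nlinarith
    have h3 : r ≤ r * L := by nlinarith
    have e : 9 + L + 1 + L * (L + 2) + 1 + (19 * (r + 2 * L + 2) + L + 1) * (2 * L + 6) + 3 =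
        248 + 315 * L + 79 * L ^ 2 + 38 * (r * L) + 114 * r := by ring
    rw [e]
    nlinarith
  have h4 : stepDepth L (19 * (r + 2 * L + 2) + L) ≤ 1286 * L ^ 2 + 304 * (r * L) := by
    unfold stepDepth
    have : 1 ≤ L ^ 2 := Nat.one_le_pow _ _ hL
    omega
  have h5 : 2 * L * stepDepth L (19 * (r + 2 * L + 2) + L) ≤
      2 * L * (1286 * L ^ 2 + 304 * (r * L)) := Nat.mul_le_mul_left _ h4
  have h6 : L ≤ L ^ 3 := by
    calc L = L ^ 1 := (pow_one L).symm
      _ ≤ L ^ 3 := Nat.pow_le_pow_right hL (by norm_num)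
  have e2 : 2 * L * (1286 * L ^ 2 + 304 * (r * L)) = 2572 * L ^ 3 + 608 * (r * L ^ 2) := by
    ring
  have e3 : 2600 * L ^ 2 * (L + r) = 2600 * L ^ 3 + 2600 * (r * L ^ 2) := by ring
  have h7 : 1 ≤ L ^ 3 := Nat.one_le_pow _ _ hL
  rw [e3]
  rw [e2] at h5
  have h8 : 0 ≤ r * L ^ 2 := Nat.zero_le _
  omega

/-- Extension of orientation rules. -/
def oExt (dir : Fin m → Pr n → Bool) (t : ℕ) (g : Pr n) : Fin n × Fin n :=
  if h : t < m then orient (dir ⟨t, h⟩ g) g.1 else g.1

theorem oExt_ori (dir : Fin m → Pr n → Bool) (t : ℕ) (g : Pr n) : Ori (oExt dir t g) g.1 := by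
  unfold oExt
  split_ifs with h
  · unfold orient
    split_ifs
    · exact Or.inr rfl
    · exact Or.inl rfl
  · exact Or.inl rfl

theorem fail_card (hn : 2 ≤ n) (r : ℕ) (x : Fin n → Bool) (dir : Fin m → Pr n → Bool)
    (okb : (Fin m → Pr n) → Bool)
    (hok : ∀ g, okb g = okV (describe (fun t => orient (dir t (g t)) (g t).1) x)
      (tabT (lg n m) (19 * (r + 2 * lg n m + 2) + lg n m)
        (describe (fun t => orient (dir t (g t)) (g t).1) x) (2 * lg n m))) :
    2 ^ r * (Finset.univ.filter fun g : Fin m → Pr n => okb g = false).card ≤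
      Fintype.card (Pr n) ^ m := by
  have hne := nonempty_Pr hn
  set L := lg n m with hL
  set k := r + 2 * L + 2 with hk
  set R := 19 * k + L with hR
  obtain ⟨hN1, hN2⟩ := lg_spec n m (by omega)
  have hnL : n ≤ 2 ^ L := le_trans (Nat.le_mul_of_pos_right _ (Nat.succ_pos m)) hN1
  have hmL : m + 1 ≤ 2 ^ L := le_trans (Nat.le_mul_of_pos_left _ (by omega)) hN1
  have hcard : Fintype.card (Nd n m) ≤ 2 ^ L := by
    rw [Fintype.card_prod, Fintype.card_fin, Fintype.card_fin, mul_comm]
    exact hN1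
  let ω0 : ℕ → Pr n := fun _ => hne.some
  let N : (Fin m → Pr n) → ℕ → Fin n × Fin n := fun g => netOf (oExt dir) (ext m ω0 g)
  have hNe : ∀ g (t : Fin m), N g t = orient (dir t (g t)) (g t).1 := by
    intro g t
    simp only [N, netOf, oExt, ext, t.isLt, dif_pos]
  have hNn : ∀ g t, (N g t).1 ≠ (N g t).2 := fun g t =>
    netOf_ne (oExt dir) (oExt_ori dir) _ t
  -- a failure gives a bad window
  have hfail : ∀ g, okb g = false → ∃ j ∈ Finset.range (2 * L), ∃ τ ∈ Finset.range (m + 1),
      τ + ell j ≤ m ∧ ¬ LabT (N g) x R (ell j) ((ell j + 1) / 2) m τ := by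
    intro g hg
    by_contra hcon
    push Not at hcon
    set z := describe (fun t => orient (dir t (g t)) (g t).1) x with hz
    have henc : Enc z (N g) := enc_describe _ x (N g) (hNe g)
    have hknown : Known (N g) x (tabT L R z (2 * L)) (ell (2 * L)) :=
      tabT_known henc (hNn g) hcard R (2 * L) fun j hj τ hτ =>
        hcon j (Finset.mem_range.2 hj) τ (Finset.mem_range.2 (by have := ell_pos j; omega)) hτ
    have hmell : m ≤ ell (2 * L) := le_trans (by omega) (le_trans hmL (ell_ge L))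
    have hgood : okV z (tabT L R z (2 * L)) = true := by
      rw [okV_iff henc]
      intro t i
      have h1 := hknown 0 t (by simp only [Fin.val_zero]; have := t.isLt; omega) i
        (by have := t.isLt; omega)
      have e : (⟨((0 : Fin (m + 1)) : ℕ) + (t : ℕ), by
          simp only [Fin.val_zero]; have := t.isLt; omega⟩ : Fin (m + 1)) = t := by
        apply Fin.ext
        simp
      rw [e] at h1
      exact h1
    rw [hok g, hgood] at hg
    exact Bool.noConfusion hg
  have hind : ∀ g, ind (okb g = false) ≤ ∑ j ∈ Finset.range (2 * L),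
      ∑ τ ∈ Finset.range (m + 1), ind (τ + ell j ≤ m ∧
        ¬ LabT (N g) x R (ell j) ((ell j + 1) / 2) m τ) := by
    intro g
    refine ind_le_of (Finset.sum_nonneg fun j _ => Finset.sum_nonneg fun τ _ => ind_nonneg _)
      fun hg => ?_
    obtain ⟨j, hj, τ, hτ, h1⟩ := hfail g hg
    refine le_trans ?_ (Finset.single_le_sum (f := fun j => ∑ τ ∈ Finset.range (m + 1),
      ind (τ + ell j ≤ m ∧ ¬ LabT (N g) x R (ell j) ((ell j + 1) / 2) m τ))
      (fun j _ => Finset.sum_nonneg fun τ _ => ind_nonneg _) hj)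
    refine le_trans ?_ (Finset.single_le_sum (f := fun τ =>
      ind (τ + ell j ≤ m ∧ ¬ LabT (N g) x R (ell j) ((ell j + 1) / 2) m τ))
      (fun τ _ => ind_nonneg _) hτ)
    rw [ind_true h1]
  have hEw : ∀ j τ, Ew 0 m (fun ω => ind (τ + ell j ≤ m ∧
      ¬ LabT (netOf (oExt dir) ω) x R (ell j) ((ell j + 1) / 2) m τ)) ω0 ≤
        3 * (1 / 2) ^ k := by
    intro j τ
    by_cases h1 : τ + ell j ≤ m
    · simp only [h1, true_and]
      exact bad_le hn (oExt dir) (oExt_ori dir) x (by omega) hnL hR (ell_pos j) h1 ω0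
    · refine Ew_le_const _ _ _ _ _ fun ω _ => ?_
      rw [ind_false (fun h => h1 h.1)]
      positivity
  have hsum : (∑ g : Fin m → Pr n, ind (okb g = false)) ≤
      (Fintype.card (Pr n) : ℝ) ^ m * ((2 * L) * ((m + 1) * (3 * (1 / 2) ^ k))) := by
    refine le_trans (Finset.sum_le_sum fun g _ => hind g) ?_
    have h1 := sum_ext m ω0 (fun ω => ∑ j ∈ Finset.range (2 * L),
      ∑ τ ∈ Finset.range (m + 1), ind (τ + ell j ≤ m ∧
        ¬ LabT (netOf (oExt dir) ω) x R (ell j) ((ell j + 1) / 2) m τ))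
    rw [h1]
    refine mul_le_mul_of_nonneg_left ?_ (by positivity)
    rw [Ew_sum]
    simp only [Ew_sum]
    have h2 : ∀ j ∈ Finset.range (2 * L), ∑ τ ∈ Finset.range (m + 1),
        Ew 0 m (fun ω => ind (τ + ell j ≤ m ∧
          ¬ LabT (netOf (oExt dir) ω) x R (ell j) ((ell j + 1) / 2) m τ)) ω0 ≤
          (m + 1) * (3 * (1 / 2) ^ k) := by
      intro j _
      refine le_trans (Finset.sum_le_sum fun τ _ => hEw j τ) ?_
      rw [Finset.sum_const, Finset.card_range, nsmul_eq_mul]
      push_cast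
      exact le_rfl
    refine le_trans (Finset.sum_le_sum h2) ?_
    rw [Finset.sum_const, Finset.card_range, nsmul_eq_mul]
    push_cast
    exact le_rfl
  have hcnt : (∑ g : Fin m → Pr n, ind (okb g = false)) =
      ((Finset.univ.filter fun g : Fin m → Pr n => okb g = false).card : ℝ) := by
    rw [Finset.card_filter, Nat.cast_sum]
    refine Finset.sum_congr rfl fun g _ => ?_
    by_cases h1 : okb g = false
    · rw [ind_true h1, if_pos h1, Nat.cast_one]
    · rw [ind_false h1, if_neg h1, Nat.cast_zero]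
  rw [hcnt] at hsum
  have hnum : (2 : ℝ) ^ r * ((2 * L) * ((m + 1) * (3 * (1 / 2) ^ k))) ≤ 1 := by
    have h1 : (2 * L : ℝ) ≤ 2 ^ L := by
      have : 2 * L ≤ 2 ^ L := by
        have hL1 : 1 ≤ L := Nat.succ_le_succ (Nat.zero_le _)
        clear_value L
        induction L, hL1 using Nat.le_induction with
        | base => norm_num
        | succ L hL1 ih2 =>
          rw [pow_succ]
          have : 2 ≤ 2 ^ L := by
            calc 2 = 2 ^ 1 := rfl
              _ ≤ 2 ^ L := Nat.pow_le_pow_right (by norm_num) hL1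
          have h5 : L < 2 ^ L := Nat.lt_two_pow_self
          omega
      exact_mod_cast this
    have h2 : ((m : ℝ) + 1) ≤ 2 ^ L := by exact_mod_cast hmL
    calc (2 : ℝ) ^ r * ((2 * L) * ((m + 1) * (3 * (1 / 2) ^ k)))
        ≤ 2 ^ r * (2 ^ L * (2 ^ L * (4 * (1 / 2) ^ k))) := by
          refine mul_le_mul_of_nonneg_left ?_ (by positivity)
          refine mul_le_mul h1 ?_ (by positivity) (by positivity)
          refine mul_le_mul h2 ?_ (by positivity) (by positivity)
          have : (0 : ℝ) ≤ (1 / 2) ^ k := by positivity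
          linarith
      _ = 2 ^ k * (1 / 2) ^ k := by
          rw [hk, pow_add, pow_add, pow_mul']
          ring
      _ = 1 := by
          rw [← mul_pow]
          norm_num
  have hfin : (2 : ℝ) ^ r *
      ((Finset.univ.filter fun g : Fin m → Pr n => okb g = false).card : ℝ) ≤
        (Fintype.card (Pr n) : ℝ) ^ m := by
    calc (2 : ℝ) ^ r * _ ≤ 2 ^ r * ((Fintype.card (Pr n) : ℝ) ^ m *
          ((2 * L) * ((m + 1) * (3 * (1 / 2) ^ k)))) :=
          mul_le_mul_of_nonneg_left hsum (by positivity)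
      _ = (Fintype.card (Pr n) : ℝ) ^ m *
          (2 ^ r * ((2 * L) * ((m + 1) * (3 * (1 / 2) ^ k)))) := by ring
      _ ≤ (Fintype.card (Pr n) : ℝ) ^ m * 1 :=
          mul_le_mul_of_nonneg_left hnum (by positivity)
      _ = _ := mul_one _
  exact_mod_cast hfin

theorem random_main (n m r : ℕ) (hn : 2 ≤ n) :
    ∃ (B : BCircuit (Bit n m) (8192 * (n * (m + 1)) ^ 5))
      (ok : Fin (8192 * (n * (m + 1)) ^ 5))
      (out : Fin (m + 1) → Fin n → Fin (8192 * (n * (m + 1)) ^ 5)),
      (∀ (net : Fin m → Fin n × Fin n) (x : Fin n → Bool),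
        B.level (describe net x)
          (2600 * (Nat.log 2 (n * (m + 1)) + 1) ^ 2 *
            (Nat.log 2 (n * (m + 1)) + 1 + r)) ok = true →
        ∀ (t : Fin (m + 1)) (i : Fin n), B.level (describe net x)
          (2600 * (Nat.log 2 (n * (m + 1)) + 1) ^ 2 *
            (Nat.log 2 (n * (m + 1)) + 1 + r)) (out t i) = wires net x t i) ∧
      ∀ (x : Fin n → Bool) (dir : Fin m → Pr n → Bool),
        2 ^ r * (Finset.univ.filter fun g : Fin m → Pr n =>
          B.level (describe (fun t => orient (dir t (g t)) (g t).1) x)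
            (2600 * (Nat.log 2 (n * (m + 1)) + 1) ^ 2 *
              (Nat.log 2 (n * (m + 1)) + 1 + r)) ok = false).card ≤
          Fintype.card (Pr n) ^ m := by
  set L := lg n m with hL
  have hLe : Nat.log 2 (n * (m + 1)) + 1 = L := rfl
  rw [hLe]
  obtain ⟨hN1, hN2⟩ := lg_spec n m (by omega)
  have hnL : Fintype.card (Fin n) ≤ 2 ^ L := by
    rw [Fintype.card_fin]
    exact le_trans (Nat.le_mul_of_pos_right _ (Nat.succ_pos m)) hN1
  have hcard : Fintype.card (Nd n m) ≤ 2 ^ L := by
    rw [Fintype.card_prod, Fintype.card_fin, Fintype.card_fin, mul_comm]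
    exact hN1
  have hW := width_le n m (by omega)
  have h1 := lev_out (R := 19 * (r + 2 * L + 2) + L) hnL hcard hW (by omega) (2 * L)
  have hd := depth_le L r (Nat.succ_le_succ (Nat.zero_le _))
  have hWo : Fintype.card (Option (Nd n m)) ≤ 8192 * (n * (m + 1)) ^ 5 := by
    rw [Fintype.card_option, Fintype.card_prod, Fintype.card_fin, Fintype.card_fin,
      mul_comm (m + 1) n]
    have : 1 ≤ n * (m + 1) := Nat.one_le_iff_ne_zero.2 (by positivity)
    have h2 : n * (m + 1) ≤ (n * (m + 1)) ^ 5 := by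
      calc n * (m + 1) = (n * (m + 1)) ^ 1 := (pow_one _).symm
        _ ≤ (n * (m + 1)) ^ 5 := Nat.pow_le_pow_right this (by norm_num)
    omega
  obtain ⟨d', hd'⟩ := Nat.exists_eq_add_of_le hd
  have h3 := lev_copy hWo h1 d'
  rw [← hd'] at h3
  obtain ⟨B, o, hB⟩ := h3.toCircuit
  refine ⟨B, o none, fun t i => o (some (t, i)), ?_, ?_⟩
  · intro net x hok t i
    rw [hB] at hok ⊢
    change okV _ _ = true at hok
    change tabT _ _ _ _ (0, (t, i)) = _
    let p0 : Fin n × Fin n := (⟨0, by omega⟩, ⟨1, by omega⟩)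
    have hN : ∀ t : Fin m, netExt net p0 t = net t := by
      intro t
      unfold netExt
      rw [dif_pos t.isLt]
    have h4 := (okV_iff (enc_describe net x (netExt net p0) hN) _).1 hok t i
    rw [h4]
    change tr (netExt net p0) 0 x t i = _
    rw [wires_eq net x (netExt net p0) hN t (by have := t.isLt; omega)]
  · intro x dir
    refine fail_card hn r x dir _ fun g => ?_
    rw [hB]
    rfl

end Pool.Agent.LibCCR
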