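import Pool.Agent.LibCCR.Proc
import Pool.Agent.LibCCR.Depth

/-!
The failure probability and the circuit.
-/

namespace Pool.Agent.LibCCR

open Pool.Agent.LibCC

variable {n : ℕ}

theorem exp_bound : Real.exp 12 ≤ 2 ^ 18 := by
  have h1 : Real.exp 12 = Real.exp 1 ^ 12 := by
    rw [← Real.exp_nat_mul]
    norm_num
  rw [h1]
  calc Real.exp 1 ^ 12 ≤ (2.7182818286 : ℝ) ^ 12 :=
        pow_le_pow_left₀ (Real.exp_pos 1).le Real.exp_one_lt_d9.le 12
    _ ≤ 2 ^ 18 := by norm_num

/-- The arithmetic of the label tail. -/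
theorem tail_bound {p nn : ℝ} (hp : 0 ≤ p) (hnn : 0 < nn) {g k K L R : ℕ}
    (hpg : p ≤ nn / (g + 2)) (hK : K ≤ k * (g + 1)) (hpL : p ≤ 2 ^ L)
    (hR : R = 19 * k + L) :
    (1 + 12 * p / nn) ^ K * p / 2 ^ (R + 1) ≤ (1 / 2) ^ k := by
  have hg : (0 : ℝ) ≤ g := Nat.cast_nonneg g
  have h1 : (1 + 12 * p / nn) ^ K ≤ (2 : ℝ) ^ (18 * k) := by
    have h2 : 1 + 12 * p / nn ≤ Real.exp (12 * p / nn) := by
      have := Real.add_one_le_exp (12 * p / nn)
      linarith
    have h3 : (1 + 12 * p / nn) ^ K ≤ Real.exp (12 * p / nn) ^ K :=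
      pow_le_pow_left₀ (by positivity) h2 K
    refine le_trans h3 ?_
    rw [← Real.exp_nat_mul]
    have h4 : (K : ℝ) * (12 * p / nn) ≤ k * 12 := by
      have h5 : 12 * p / nn ≤ 12 / (g + 2) := by
        rw [div_le_div_iff₀ hnn (by positivity)]
        rw [le_div_iff₀ (by positivity)] at hpg
        linarith
      have h6 : (K : ℝ) ≤ k * (g + 1) := by exact_mod_cast hK
      have hk0 : (0 : ℝ) ≤ k := Nat.cast_nonneg k
      calc (K : ℝ) * (12 * p / nn) ≤ (k * (g + 1)) * (12 / (g + 2)) :=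
            mul_le_mul h6 h5 (by positivity) (by positivity)
        _ ≤ k * 12 := by
            rw [mul_div_assoc', div_le_iff₀ (by positivity)]
            nlinarith
    calc Real.exp ((K : ℝ) * (12 * p / nn)) ≤ Real.exp (k * 12) := Real.exp_le_exp.2 h4
      _ = Real.exp 12 ^ k := by rw [Real.exp_nat_mul]
      _ ≤ (2 ^ 18) ^ k := pow_le_pow_left₀ (Real.exp_pos _).le exp_bound k
      _ = 2 ^ (18 * k) := by rw [← pow_mul]
  rw [div_le_iff₀ (by positivity)]
  calc (1 + 12 * p / nn) ^ K * p ≤ 2 ^ (18 * k) * 2 ^ L :=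
        mul_le_mul h1 hpL hp (by positivity)
    _ ≤ (1 / 2) ^ k * 2 ^ (R + 1) := by
        rw [hR, show 19 * k + L + 1 = k + (18 * k + L + 1) by ring, pow_add 2 k, ← mul_assoc,
          ← mul_pow]
        norm_num
        rw [← pow_add]
        exact pow_le_pow_right₀ (by norm_num) (by omega)

theorem dn_or (y z : Fin n → Bool) : dn y (fun i => y i || z i) = dn y z := by
  unfold dn
  refine Finset.sum_congr rfl fun i _ => ?_
  unfold Df
  rcases Bool.eq_false_or_eq_true (y i) with a1 | a1 <;>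
  rcases Bool.eq_false_or_eq_true (z i) with a2 | a2 <;> simp [a1, a2]

theorem dn_compl (y z : Fin n → Bool) :
    dn (fun i => !(y i || z i)) (fun i => !z i) = dn z y := by
  unfold dn
  refine Finset.sum_congr rfl fun i _ => ?_
  unfold Df
  rcases Bool.eq_false_or_eq_true (y i) with a1 | a1 <;>
  rcases Bool.eq_false_or_eq_true (z i) with a2 | a2 <;> simp [a1, a2]

theorem labOK_ad (o : ℕ → Pr n → Fin n × Fin n) (t1 K R : ℕ) (y z : Fin n → Bool) :
    Ad (t1 + K) (fun ω : ℕ → Pr n => ind (¬ LabOK (netOf o ω) t1 y z R K)) := by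
  intro ω ω' h
  have h1 : ∀ k ≤ K, ∀ t, t1 ≤ t → t < t1 + k → netOf o ω t = netOf o ω' t := by
    intro k hk t _ ht
    unfold netOf
    rw [h t (by omega)]
  have h2 : LabOK (netOf o ω) t1 y z R K ↔ LabOK (netOf o ω') t1 y z R K := by
    unfold LabOK
    constructor
    · intro h3 k hk i hi
      rw [← lab_congr (h1 k hk)]
      rw [← tr_congr (h1 k hk), ← tr_congr (y := z) (h1 k hk)] at hi
      exact h3 k hk i hi
    · intro h3 k hk i hi
      rw [lab_congr (h1 k hk)]
      rw [tr_congr (h1 k hk), tr_congr (y := z) (h1 k hk)] at hi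
      exact h3 k hk i hi
  simp only [h2]

theorem ind_le_add {p q r : Prop} (h : p → q ∨ r) : ind p ≤ ind q + ind r := by
  refine ind_le_of (add_nonneg (ind_nonneg _) (ind_nonneg _)) fun hp => ?_
  rcases h hp with h | h
  · rw [ind_true h]
    have := ind_nonneg r
    linarith
  · rw [ind_true h]
    have := ind_nonneg q
    linarith

theorem bad_le (hn : 2 ≤ n) (o : ℕ → Pr n → Fin n × Fin n) (ho : ∀ t g, Ori (o t g) g.1)
    (x : Fin n → Bool) {m k L R l τ : ℕ} (hk : 0 < k) (hnL : n ≤ 2 ^ L)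
    (hR : R = 19 * k + L) (hl : 1 ≤ l) (hτ : τ + l ≤ m) (ω0 : ℕ → Pr n) :
    Ew 0 m (fun ω => ind (¬ LabT (netOf o ω) x R l ((l + 1) / 2) m τ)) ω0 ≤
      3 * (1 / 2) ^ k := by
  have := nonempty_Pr hn
  have hn2 : (2 : ℝ) ≤ n := by exact_mod_cast hn
  have hnn : (0 : ℝ) < (n : ℝ) ^ 2 := by positivity
  set h := (l + 1) / 2 with hh
  set T := l - h with hT
  set σ := τ + h with hσ
  set t1 := τ + l with ht1
  set K := min h (m - t1) with hK
  set g := T / k with hg
  have hkg : k * g ≤ T := Nat.mul_div_le T k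
  have hKg : K ≤ k * (g + 1) := by
    have h1 : T < k * (g + 1) := by
      rw [hg, mul_comm]
      exact Nat.lt_mul_of_div_lt (Nat.lt_succ_self _) hk
    have h2 : h ≤ T + 1 := by omega
    omega
  have e1 : t1 = σ + T := by omega
  -- the state at the time `t1`
  let yy : (ℕ → Pr n) → Fin n → Bool := fun ω => tr (netOf o ω) σ x T
  let zz : (ℕ → Pr n) → Fin n → Bool := fun ω => tr (netOf o ω) τ x l
  have hzz : ∀ ω, zz ω = tr (netOf o ω) σ (tr (netOf o ω) τ x h) T := by
    intro ω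
    change tr (netOf o ω) τ x l = _
    rw [hσ, tr_add]
    congr 1
    omega
  have hwt : ∀ ω, wt (yy ω) = wt (zz ω) := by
    intro ω
    change wt (tr (netOf o ω) σ x T) = wt (tr (netOf o ω) τ x l)
    rw [wt_tr (netOf_ne o ho ω), wt_tr (netOf_ne o ho ω)]
  have hdnc : ∀ ω, dn (zz ω) (yy ω) = dn (yy ω) (zz ω) := by
    intro ω
    have h1 := dn_sub_dn (yy ω) (zz ω)
    have h2 := hwt ω
    linarith
  have hcongr : ∀ ω ω' : ℕ → Pr n, (∀ t < t1, ω' t = ω t) → yy ω' = yy ω ∧ zz ω' = zz ω := by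
    intro ω ω' h1
    constructor
    · exact tr_congr fun t _ ht => by
        unfold netOf
        rw [h1 t (by omega)]
    · exact tr_congr fun t _ ht => by
        unfold netOf
        rw [h1 t (by omega)]
  have hm : m = σ + (T + (m - t1)) := by omega
  have hsplit : ∀ F : (ℕ → Pr n) → ℝ, Ew 0 m F ω0 =
      Ew 0 σ (Ew σ T (Ew t1 (m - t1) F)) ω0 := by
    intro F
    conv_lhs => rw [hm]
    rw [Ew_add 0 σ, Nat.zero_add]
    refine Ew_congr 0 σ _ _ ω0 fun ω' _ => ?_
    rw [Ew_add σ T, ← e1]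
  rw [hsplit]
  -- the window of the labels
  have hin : ∀ ω' : ℕ → Pr n,
      Ew t1 (m - t1) (fun ω => ind (¬ LabT (netOf o ω) x R l h m τ)) ω' ≤
        ind ((n : ℝ) ^ 2 / (g + 2) < dn (yy ω') (zz ω')) + 2 * (1 / 2) ^ k := by
    intro ω'
    by_cases hc : (n : ℝ) ^ 2 / (g + 2) < dn (yy ω') (zz ω')
    · rw [ind_true hc]
      have h1 : Ew t1 (m - t1) (fun ω => ind (¬ LabT (netOf o ω) x R l h m τ)) ω' ≤ 1 :=
        Ew_le_const _ _ _ _ 1 fun _ _ => ind_le_one _
      have h2 : (0 : ℝ) ≤ 2 * (1 / 2) ^ k := by positivity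
      linarith
    · rw [ind_false hc, zero_add]
      rw [not_lt] at hc
      let o' : ℕ → Pr n → Fin n × Fin n := fun t g => ((o t g).2, (o t g).1)
      have ho' : ∀ t g, Ori (o' t g) g.1 := by
        intro t g
        rcases ho t g with h1 | h1
        · right
          change ((o t g).2, (o t g).1) = _
          rw [h1]
        · left
          change ((o t g).2, (o t g).1) = _
          rw [h1]
      have hdn1 : dn (yy ω') (fun i => yy ω' i || zz ω' i) = dn (yy ω') (zz ω') := dn_or _ _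
      have hdn2 : dn (fun i => !(yy ω' i || zz ω' i)) (fun i => !zz ω' i) =
          dn (yy ω') (zz ω') := by rw [dn_compl, hdnc]
      have hle1 : Le (yy ω') (fun i => yy ω' i || zz ω' i) := by
        intro i hi
        simp [hi]
      have hle2 : Le (fun i => !(yy ω' i || zz ω' i)) (fun i => !zz ω' i) := by
        intro i hi
        simp only [Bool.not_or, Bool.and_eq_true, Bool.not_eq_true'] at hi
        simp [hi.2]
      have h1 : Ew t1 (m - t1) (fun ω => ind (¬ LabT (netOf o ω) x R l h m τ)) ω' ≤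
          Ew t1 (m - t1) (fun ω =>
            ind (¬ LabOK (netOf o ω) t1 (yy ω') (fun i => yy ω' i || zz ω' i) R K) +
            ind (¬ LabOK (netOf o' ω) t1 (fun i => !(yy ω' i || zz ω' i))
              (fun i => !zz ω' i) R K)) ω' := by
        refine Ew_le _ _ _ _ ω' fun ω'' hω'' => ?_
        obtain ⟨h2, h3⟩ := hcongr ω' ω'' hω''
        rw [← h2, ← h3]
        refine ind_le_add fun h4 => ?_
        by_contra h5
        rw [not_or, not_not, not_not] at h5
        apply h4
        exact ⟨h5.1, h5.2⟩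
      refine le_trans h1 ?_
      rw [Ew_plus]
      have hwin : ∀ F : (ℕ → Pr n) → ℝ, Ad (t1 + K) F →
          Ew t1 (m - t1) F ω' = Ew t1 K F ω' := by
        intro F hF
        have e2 : m - t1 = K + (m - t1 - K) := by omega
        conv_lhs => rw [e2]
        rw [Ew_add t1 K]
        exact Ew_congr t1 K _ _ ω' fun ω'' _ => Ew_ad _ _ F hF ω''
      rw [hwin _ (labOK_ad o t1 K R _ _), hwin _ (labOK_ad o' t1 K R _ _)]
      have b1 := lab_tail o hn ho hle1 t1 K R ω'
      have b2 := lab_tail o' hn ho' hle2 t1 K R ω'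
      rw [hdn1] at b1
      rw [hdn2] at b2
      have hpL : dn (yy ω') (zz ω') ≤ 2 ^ L := by
        refine le_trans (dn_le _ _) ?_
        exact_mod_cast hnL
      have b3 := tail_bound (dn_nonneg (yy ω') (zz ω')) hnn hc hKg hpL hR
      linarith
  -- the window of the discrepancy
  have hout : ∀ ω' : ℕ → Pr n, Ew σ T (Ew t1 (m - t1)
      (fun ω => ind (¬ LabT (netOf o ω) x R l h m τ))) ω' ≤ 3 * (1 / 2) ^ k := by
    intro ω'
    have h1 : Ew σ T (Ew t1 (m - t1)
        (fun ω => ind (¬ LabT (netOf o ω) x R l h m τ))) ω' ≤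
        Ew σ T (fun ω'' => ind ((n : ℝ) ^ 2 / (g + 2) <
          dn (tr (netOf o ω'') σ x T)
            (tr (netOf o ω'') σ (tr (netOf o ω') τ x h) T)) + 2 * (1 / 2) ^ k) ω' := by
      refine Ew_le _ _ _ _ ω' fun ω'' hω'' => ?_
      have h2 := hin ω''
      rw [hzz ω''] at h2
      have e3 : tr (netOf o ω'') τ x h = tr (netOf o ω') τ x h :=
        tr_congr fun t _ ht => by
          unfold netOf
          rw [hω'' t (by omega)]
      rw [e3] at h2
      exact h2
    refine le_trans h1 ?_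
    rw [Ew_plus, Ew_const]
    have hw : wt x = wt (tr (netOf o ω') τ x h) := by rw [wt_tr (netOf_ne o ho ω')]
    have h3 := dn_tail o hn ho hw σ g k T hkg ω'
    linarith
  exact Ew_le_const _ _ _ _ _ fun ω' _ => hout ω'

end Pool.Agent.LibCCR
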