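import Pool.Agent.LibCCR.Sem
import Pool.Agent.LibCCR.Avg

/-!
One random comparator: the potential of the labels and the discrepancy.
-/

namespace Pool.Agent.LibCCR

variable {n : ℕ}

/-- Ordered pairs of distinct wires. -/
abbrev Pr (n : ℕ) : Type := {p : Fin n × Fin n // p.1 ≠ p.2}

theorem sum_diff_pair {f f' : Fin n → ℝ} {p : Fin n × Fin n} (hp : p.1 ≠ p.2)
    (h : ∀ i, i ≠ p.1 → i ≠ p.2 → f' i = f i) :
    ∑ i, f' i = ∑ i, f i + (f' p.1 + f' p.2 - (f p.1 + f p.2)) := by
  have h1 : ∑ i, (f' i - f i) = ∑ i ∈ {p.1, p.2}, (f' i - f i) := by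
    symm
    refine Finset.sum_subset (Finset.subset_univ _) fun i _ hi => ?_
    simp only [Finset.mem_insert, Finset.mem_singleton, not_or] at hi
    rw [h i hi.1 hi.2, sub_self]
  rw [Finset.sum_pair hp, Finset.sum_sub_distrib] at h1
  linarith

theorem card_Pr : (Fintype.card (Pr n) : ℝ) = n * (n - 1) := by
  have h1 : Fintype.card (Pr n) = Fintype.card (Fin n × Fin n) -
      Fintype.card {p : Fin n × Fin n // p.1 = p.2} := by
    exact Fintype.card_subtype_compl (fun p : Fin n × Fin n => p.1 = p.2)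
  have h2 : Fintype.card {p : Fin n × Fin n // p.1 = p.2} = n := by
    have : {p : Fin n × Fin n // p.1 = p.2} ≃ Fin n :=
      { toFun := fun p => p.1.1
        invFun := fun i => ⟨(i, i), rfl⟩
        left_inv := by
          rintro ⟨⟨a, b⟩, h⟩
          simp only at h
          subst h
          rfl
        right_inv := fun i => rfl }
    rw [Fintype.card_congr this, Fintype.card_fin]
  rw [h1, h2, Fintype.card_prod, Fintype.card_fin]
  rw [Nat.cast_sub (Nat.le_mul_self n)]
  push_cast
  ring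

theorem sum_Pr (F : Fin n × Fin n → ℝ) :
    ∑ g : Pr n, F g.1 = ∑ a, ∑ b, if a ≠ b then F (a, b) else 0 := by
  rw [← Finset.sum_product', Finset.univ_product_univ, ← Finset.sum_filter]
  symm
  rw [← Finset.sum_subtype (F := inferInstance) (p := fun p : Fin n × Fin n => p.1 ≠ p.2)]
  simp

/-! ### The potential -/

noncomputable def pot (y z : Fin n → Bool) (lam : Fin n → ℕ) : ℝ :=
  ∑ i, if Df y z i then (2 : ℝ) ^ lam i else 0

noncomputable def dn (y z : Fin n → Bool) : ℝ := ∑ i, if Df y z i then (1 : ℝ) else 0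

theorem pot_nonneg (y z : Fin n → Bool) (lam : Fin n → ℕ) : 0 ≤ pot y z lam :=
  Finset.sum_nonneg fun i _ => by split_ifs <;> positivity

theorem dn_nonneg (y z : Fin n → Bool) : 0 ≤ dn y z :=
  Finset.sum_nonneg fun i _ => by split_ifs <;> norm_num

theorem dn_le (y z : Fin n → Bool) : dn y z ≤ n := by
  have : dn y z ≤ ∑ _i : Fin n, (1 : ℝ) := Finset.sum_le_sum fun i _ => by
    split_ifs <;> norm_num
  simpa using this

/-- weights of the labels of two active wires -/
noncomputable def both (y z : Fin n → Bool) (lam : Fin n → ℕ) (p : Fin n × Fin n) : ℝ :=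
  if Df y z p.1 ∧ Df y z p.2 then (2 : ℝ) ^ lam p.1 + 2 ^ lam p.2 else 0

theorem pot_step {p : Fin n × Fin n} (hp : p.1 ≠ p.2) {y z : Fin n → Bool} (h : Le y z)
    (lam : Fin n → ℕ) :
    pot (cmp p y) (cmp p z) (stepL p y z lam) ≤ pot y z lam + 3 * both y z lam p := by
  unfold pot
  rw [sum_diff_pair (f := fun i => if Df y z i then (2 : ℝ) ^ lam i else 0) hp]
  · have h1 := h p.1
    have h2 := h p.2
    have hmax : (2 : ℝ) ^ (max (lam p.1) (lam p.2) + 1) ≤ 2 * (2 ^ lam p.1 + 2 ^ lam p.2) := by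
      rw [pow_succ, mul_comm]
      refine mul_le_mul_of_nonneg_left ?_ (by norm_num)
      rcases le_total (lam p.1) (lam p.2) with h | h
      · rw [max_eq_right h]
        have : (0 : ℝ) ≤ 2 ^ lam p.1 := by positivity
        linarith
      · rw [max_eq_left h]
        have : (0 : ℝ) ≤ 2 ^ lam p.2 := by positivity
        linarith
    unfold both stepL Df
    simp only [cmp_fst, cmp_snd hp, true_or, or_true, if_true]
    rcases Bool.eq_false_or_eq_true (y p.1) with a1 | a1 <;>
    rcases Bool.eq_false_or_eq_true (y p.2) with a2 | a2 <;>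
    rcases Bool.eq_false_or_eq_true (z p.1) with a3 | a3 <;>
    rcases Bool.eq_false_or_eq_true (z p.2) with a4 | a4 <;>
    simp [a1, a2, a3, a4] at h1 h2 ⊢
    linarith
  · intro i hi1 hi2
    unfold stepL Df
    simp only [cmp_other hi1 hi2, hi1, hi2, or_self, if_false, ite_self]

theorem sum_both_le (y z : Fin n → Bool) (lam : Fin n → ℕ) :
    ∑ g : Pr n, both y z lam g.1 ≤ 2 * dn y z * pot y z lam := by
  rw [sum_Pr (fun p => both y z lam p)]
  have h1 : ∀ a b : Fin n, (if a ≠ b then both y z lam (a, b) else 0) ≤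
      (if Df y z a then (2 : ℝ) ^ lam a else 0) * (if Df y z b then 1 else 0) +
      (if Df y z a then 1 else 0) * (if Df y z b then (2 : ℝ) ^ lam b else 0) := by
    intro a b
    have hnn : (0 : ℝ) ≤ (if Df y z a then (2 : ℝ) ^ lam a else 0) *
        (if Df y z b then 1 else 0) +
        (if Df y z a then 1 else 0) * (if Df y z b then (2 : ℝ) ^ lam b else 0) := by
      split_ifs <;> positivity
    by_cases hab : a ≠ b
    · rw [if_pos hab]
      unfold both
      by_cases ha : Df y z a <;> by_cases hb : Df y z b <;> simp [ha, hb]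
    · rw [if_neg hab]
      exact hnn
  refine le_trans (Finset.sum_le_sum fun a _ => Finset.sum_le_sum fun b _ => h1 a b) ?_
  simp only [Finset.sum_add_distrib, ← Finset.mul_sum, ← Finset.sum_mul]
  unfold dn pot
  linarith

/-! ### The discrepancy -/

/-- the comparator meets two wires with opposite differences -/
def opp (y z : Fin n → Bool) (p : Fin n × Fin n) : Prop :=
  (Df y z p.1 ∧ Df z y p.2) ∨ (Df z y p.1 ∧ Df y z p.2)

instance (y z : Fin n → Bool) (p : Fin n × Fin n) : Decidable (opp y z p) := by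
  unfold opp; infer_instance

theorem dn_step {p : Fin n × Fin n} (hp : p.1 ≠ p.2) (y z : Fin n → Bool) :
    dn (cmp p y) (cmp p z) = dn y z - if opp y z p then 1 else 0 := by
  unfold dn
  rw [sum_diff_pair (f := fun i => if Df y z i then (1 : ℝ) else 0) hp]
  · unfold opp Df
    simp only [cmp_fst, cmp_snd hp]
    rcases Bool.eq_false_or_eq_true (y p.1) with a1 | a1 <;>
    rcases Bool.eq_false_or_eq_true (y p.2) with a2 | a2 <;>
    rcases Bool.eq_false_or_eq_true (z p.1) with a3 | a3 <;>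
    rcases Bool.eq_false_or_eq_true (z p.2) with a4 | a4 <;>
    simp [a1, a2, a3, a4] <;> ring
  · intro i hi1 hi2
    unfold Df
    simp only [cmp_other hi1 hi2]

theorem dn_cmp_of_le {p : Fin n × Fin n} (hp : p.1 ≠ p.2) {y z : Fin n → Bool} (h : Le y z) :
    dn (cmp p y) (cmp p z) = dn y z := by
  rw [dn_step hp]
  have : ¬ opp y z p := by
    rintro (⟨_, h2⟩ | ⟨h2, _⟩)
    · have := h _ h2.1
      rw [h2.2] at this
      exact Bool.noConfusion this
    · have := h _ h2.1
      rw [h2.2] at this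
      exact Bool.noConfusion this
  rw [if_neg this, sub_zero]

theorem sum_opp (y z : Fin n → Bool) :
    ∑ g : Pr n, (if opp y z g.1 then (1 : ℝ) else 0) = 2 * dn y z * dn z y := by
  rw [sum_Pr (fun p => if opp y z p then (1 : ℝ) else 0)]
  have h1 : ∀ a b : Fin n, (if a ≠ b then (if opp y z (a, b) then (1 : ℝ) else 0) else 0) =
      (if Df y z a then (1 : ℝ) else 0) * (if Df z y b then 1 else 0) +
      (if Df z y a then 1 else 0) * (if Df y z b then (1 : ℝ) else 0) := by
    intro a b
    by_cases hab : a = b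
    · subst hab
      unfold Df
      rcases Bool.eq_false_or_eq_true (y a) with a1 | a1 <;>
      rcases Bool.eq_false_or_eq_true (z a) with a2 | a2 <;> simp [a1, a2]
    · rw [if_pos hab]
      unfold opp Df
      simp only
      rcases Bool.eq_false_or_eq_true (y a) with a1 | a1 <;>
      rcases Bool.eq_false_or_eq_true (z a) with a2 | a2 <;>
      rcases Bool.eq_false_or_eq_true (y b) with a3 | a3 <;>
      rcases Bool.eq_false_or_eq_true (z b) with a4 | a4 <;> simp [a1, a2, a3, a4]
  simp only [h1, Finset.sum_add_distrib, ← Finset.mul_sum, ← Finset.sum_mul]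
  unfold dn
  ring

noncomputable def wt (y : Fin n → Bool) : ℝ := ∑ i, if y i = true then (1 : ℝ) else 0

theorem wt_cmp {p : Fin n × Fin n} (hp : p.1 ≠ p.2) (y : Fin n → Bool) :
    wt (cmp p y) = wt y := by
  unfold wt
  rw [sum_diff_pair (f := fun i => if y i = true then (1 : ℝ) else 0) hp]
  · simp only [cmp_fst, cmp_snd hp]
    cases y p.1 <;> cases y p.2 <;> simp
  · intro i hi1 hi2
    simp only [cmp_other hi1 hi2]

theorem dn_sub_dn (y z : Fin n → Bool) : dn y z - dn z y = wt z - wt y := by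
  unfold dn wt
  rw [← Finset.sum_sub_distrib, ← Finset.sum_sub_distrib]
  refine Finset.sum_congr rfl fun i _ => ?_
  unfold Df
  rcases Bool.eq_false_or_eq_true (y i) with a1 | a1 <;>
  rcases Bool.eq_false_or_eq_true (z i) with a2 | a2 <;> simp [a1, a2]

theorem dn_add_dn_le (y z : Fin n → Bool) : dn y z + dn z y ≤ n := by
  unfold dn
  rw [← Finset.sum_add_distrib]
  refine le_trans (Finset.sum_le_sum (g := fun _ => (1 : ℝ)) fun i _ => ?_) (by simp)
  unfold Df
  rcases Bool.eq_false_or_eq_true (y i) with a1 | a1 <;>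
  rcases Bool.eq_false_or_eq_true (z i) with a2 | a2 <;> simp [a1, a2]

/-! ### Random comparators with arbitrary orientations -/

/-- `q` is the pair `p`, possibly exchanged. -/
def Ori (q : Fin n × Fin n) (p : Fin n × Fin n) : Prop := q = p ∨ q = (p.2, p.1)

theorem Ori.ne {q p : Fin n × Fin n} (h : Ori q p) (hp : p.1 ≠ p.2) : q.1 ≠ q.2 := by
  rcases h with rfl | rfl
  · exact hp
  · exact hp.symm

theorem Ori.both {q p : Fin n × Fin n} (h : Ori q p) (y z : Fin n → Bool) (lam : Fin n → ℕ) :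
    both y z lam q = both y z lam p := by
  rcases h with rfl | rfl
  · rfl
  · unfold LibCCR.both
    simp only [and_comm (a := Df y z p.1), add_comm]

theorem Ori.opp {q p : Fin n × Fin n} (h : Ori q p) (y z : Fin n → Bool) :
    opp y z q ↔ opp y z p := by
  rcases h with rfl | rfl
  · rfl
  · unfold LibCCR.opp
    simp only
    tauto

theorem card_Pr_ge (hn : 2 ≤ n) : (n : ℝ) ^ 2 ≤ 2 * Fintype.card (Pr n) := by
  rw [card_Pr]
  have : (2 : ℝ) ≤ n := by exact_mod_cast hn
  nlinarith

theorem card_Pr_le : (Fintype.card (Pr n) : ℝ) ≤ (n : ℝ) ^ 2 := by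
  rw [card_Pr]
  have : (0 : ℝ) ≤ n := Nat.cast_nonneg n
  nlinarith

theorem card_Pr_pos (hn : 2 ≤ n) : (0 : ℝ) < Fintype.card (Pr n) := by
  have h1 := card_Pr_ge hn
  have : (2 : ℝ) ≤ n := by exact_mod_cast hn
  nlinarith

/-- Average growth of the potential. -/
theorem avg_pot (hn : 2 ≤ n) (o : Pr n → Fin n × Fin n) (ho : ∀ g, Ori (o g) g.1)
    {y z : Fin n → Bool} (h : Le y z) (lam : Fin n → ℕ) :
    (∑ g : Pr n, pot (cmp (o g) y) (cmp (o g) z) (stepL (o g) y z lam)) /
      Fintype.card (Pr n) ≤ (1 + 12 * dn y z / (n : ℝ) ^ 2) * pot y z lam := by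
  have hc := card_Pr_pos hn
  have hg := card_Pr_ge hn
  have hn0 : (0 : ℝ) < (n : ℝ) ^ 2 := by
    have : (2 : ℝ) ≤ n := by exact_mod_cast hn
    positivity
  rw [div_le_iff₀ hc]
  have h1 : ∑ g : Pr n, pot (cmp (o g) y) (cmp (o g) z) (stepL (o g) y z lam) ≤
      ∑ g : Pr n, (pot y z lam + 3 * both y z lam g.1) := by
    refine Finset.sum_le_sum fun g _ => ?_
    rw [← (ho g).both]
    exact pot_step ((ho g).ne g.2) h lam
  refine le_trans h1 ?_
  rw [Finset.sum_add_distrib, Finset.sum_const, Finset.card_univ, nsmul_eq_mul,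
    ← Finset.mul_sum]
  have h2 := sum_both_le y z lam
  have h3 : 0 ≤ dn y z * pot y z lam := mul_nonneg (dn_nonneg _ _) (pot_nonneg _ _ _)
  have h4 : 6 * (dn y z * pot y z lam) ≤
      12 * dn y z / (n : ℝ) ^ 2 * pot y z lam * Fintype.card (Pr n) := by
    rw [div_mul_eq_mul_div, div_mul_eq_mul_div, le_div_iff₀ hn0]
    nlinarith
  nlinarith

/-- Average decrease of the discrepancy. -/
theorem avg_dn (hn : 2 ≤ n) (o : Pr n → Fin n × Fin n) (ho : ∀ g, Ori (o g) g.1)
    {y z : Fin n → Bool} (h : wt y = wt z) :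
    (∑ g : Pr n, dn (cmp (o g) y) (cmp (o g) z)) / Fintype.card (Pr n) ≤
      dn y z - 2 / (n : ℝ) ^ 2 * dn y z ^ 2 := by
  have hc := card_Pr_pos hn
  have hg := card_Pr_le (n := n)
  have hn0 : (0 : ℝ) < (n : ℝ) ^ 2 := by
    have : (2 : ℝ) ≤ n := by exact_mod_cast hn
    positivity
  rw [div_le_iff₀ hc]
  have h0 : dn z y = dn y z := by
    have := dn_sub_dn y z
    linarith
  have h1 : ∑ g : Pr n, dn (cmp (o g) y) (cmp (o g) z) =
      ∑ g : Pr n, (dn y z - if opp y z g.1 then 1 else 0) := by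
    refine Finset.sum_congr rfl fun g _ => ?_
    rw [dn_step ((ho g).ne g.2)]
    simp only [(ho g).opp]
  rw [h1, Finset.sum_sub_distrib, Finset.sum_const, Finset.card_univ, nsmul_eq_mul, sum_opp, h0]
  have h4 : 2 / (n : ℝ) ^ 2 * dn y z ^ 2 * Fintype.card (Pr n) ≤ 2 * dn y z * dn y z := by
    rw [div_mul_eq_mul_div, div_mul_eq_mul_div, div_le_iff₀ hn0]
    have := sq_nonneg (dn y z)
    nlinarith
  nlinarith

end Pool.Agent.LibCCR
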