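import Pool.Agent.LibCCR.Pair

/-!
Random networks: tails of the labels and of the discrepancy.
-/

namespace Pool.Agent.LibCCR

variable {n : ℕ}

/-- The network of the sequence `ω` of pairs with orientations `o`. -/
def netOf (o : ℕ → Pr n → Fin n × Fin n) (ω : ℕ → Pr n) (t : ℕ) : Fin n × Fin n := o t (ω t)

theorem tr_congr {N N' : ℕ → Fin n × Fin n} {s : ℕ} {y : Fin n → Bool} {k : ℕ}
    (h : ∀ t, s ≤ t → t < s + k → N t = N' t) : tr N s y k = tr N' s y k := by
  induction k with
  | zero => rfl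
  | succ k ih =>
    change cmp (N (s + k)) (tr N s y k) = cmp (N' (s + k)) (tr N' s y k)
    rw [ih (fun t h1 h2 => h t h1 (by omega)), h (s + k) (by omega) (by omega)]

theorem lab_congr {N N' : ℕ → Fin n × Fin n} {s : ℕ} {y z : Fin n → Bool} {k : ℕ}
    (h : ∀ t, s ≤ t → t < s + k → N t = N' t) : lab N s y z k = lab N' s y z k := by
  induction k with
  | zero => rfl
  | succ k ih =>
    change stepL (N (s + k)) (tr N s y k) (tr N s z k) (lab N s y z k) =
      stepL (N' (s + k)) (tr N' s y k) (tr N' s z k) (lab N' s y z k)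
    rw [ih (fun t h1 h2 => h t h1 (by omega)), h (s + k) (by omega) (by omega),
      tr_congr (fun t h1 h2 => h t h1 (by omega)), tr_congr (fun t h1 h2 => h t h1 (by omega))]

/-- Indicator. -/
noncomputable def ind (p : Prop) : ℝ := by
  classical
  exact if p then 1 else 0

theorem ind_true {p : Prop} (h : p) : ind p = 1 := by
  unfold ind; rw [if_pos h]

theorem ind_false {p : Prop} (h : ¬ p) : ind p = 0 := by
  unfold ind; rw [if_neg h]

theorem ind_nonneg (p : Prop) : 0 ≤ ind p := by
  by_cases h : p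
  · rw [ind_true h]; norm_num
  · rw [ind_false h]

theorem ind_le_one (p : Prop) : ind p ≤ 1 := by
  by_cases h : p
  · rw [ind_true h]
  · rw [ind_false h]; norm_num

theorem ind_le_of {p : Prop} {c : ℝ} (hc : 0 ≤ c) (h : p → 1 ≤ c) : ind p ≤ c := by
  by_cases hp : p
  · rw [ind_true hp]; exact h hp
  · rw [ind_false hp]; exact hc

theorem dn_tr_anti {N : ℕ → Fin n × Fin n} (hN : ∀ t, (N t).1 ≠ (N t).2) (s : ℕ)
    (y z : Fin n → Bool) (k l : ℕ) :
    dn (tr N s y (k + l)) (tr N s z (k + l)) ≤ dn (tr N s y k) (tr N s z k) := by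
  induction l with
  | zero => exact le_rfl
  | succ l ih =>
    refine le_trans ?_ ih
    change dn (cmp (N (s + (k + l))) (tr N s y (k + l)))
      (cmp (N (s + (k + l))) (tr N s z (k + l))) ≤ _
    rw [dn_step (hN _)]
    split_ifs <;> linarith

theorem wt_tr {N : ℕ → Fin n × Fin n} (hN : ∀ t, (N t).1 ≠ (N t).2) (s : ℕ)
    (y : Fin n → Bool) (k : ℕ) : wt (tr N s y k) = wt y := by
  induction k with
  | zero => rfl
  | succ k ih =>
    change wt (cmp _ _) = _
    rw [wt_cmp (hN _), ih]

theorem dn_tr_le {N : ℕ → Fin n × Fin n} (hN : ∀ t, (N t).1 ≠ (N t).2) (s : ℕ)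
    {y z : Fin n → Bool} (h : Le y z) (k : ℕ) : dn (tr N s y k) (tr N s z k) = dn y z := by
  induction k with
  | zero => rfl
  | succ k ih =>
    change dn (cmp _ _) (cmp _ _) = _
    rw [dn_cmp_of_le (hN _) (tr_le hN s h k), ih]

/-- A difference with a large label persists. -/
theorem lab_persist {N : ℕ → Fin n × Fin n} (hN : ∀ t, (N t).1 ≠ (N t).2) (s : ℕ)
    {y z : Fin n → Bool} (h : Le y z) (R k l : ℕ)
    (hk : ∃ i, Df (tr N s y k) (tr N s z k) i ∧ R < lab N s y z k i) :
    ∃ i, Df (tr N s y (k + l)) (tr N s z (k + l)) i ∧ R < lab N s y z (k + l) i := by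
  induction l with
  | zero => exact hk
  | succ l ih =>
    obtain ⟨i, hi, hR⟩ := ih
    set p := N (s + (k + l)) with hp
    have hpne : p.1 ≠ p.2 := hN _
    set u := tr N s y (k + l) with hu
    set v := tr N s z (k + l) with hv
    set lam := lab N s y z (k + l) with hlam
    have hle : Le u v := tr_le hN s h (k + l)
    change ∃ i, Df (cmp p u) (cmp p v) i ∧ R < stepL p u v lam i
    refine ⟨nxt p u i, df_nxt hpne hle hi, lt_of_lt_of_le hR ?_⟩
    by_cases hb : Df u v p.1 ∧ Df u v p.2
    · by_cases h1 : i = p.1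
      · subst h1
        have h2 : nxt p u p.1 = p.1 ∨ nxt p u p.1 = p.2 := by
          rw [nxt_fst]; split_ifs <;> simp
        unfold stepL
        rw [if_pos hb, if_pos h2]
        have := le_max_left (lam p.1) (lam p.2)
        omega
      · by_cases h2 : i = p.2
        · subst h2
          have h3 : nxt p u p.2 = p.1 ∨ nxt p u p.2 = p.2 := by
            rw [nxt_snd hpne]; split_ifs <;> simp
          unfold stepL
          rw [if_pos hb, if_pos h3]
          have := le_max_right (lam p.1) (lam p.2)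
          omega
        · rw [nxt_other h1 h2]
          unfold stepL
          rw [if_pos hb, if_neg (by simp [h1, h2])]
    · by_cases h1 : i = p.1
      · subst h1
        have h2 : nxt p u p.1 = p.1 ∨ nxt p u p.1 = p.2 := by
          rw [nxt_fst]; split_ifs <;> simp
        unfold stepL
        rw [if_neg hb, if_pos h2, if_pos hi]
      · by_cases h2 : i = p.2
        · subst h2
          have h3 : nxt p u p.2 = p.1 ∨ nxt p u p.2 = p.2 := by
            rw [nxt_snd hpne]; split_ifs <;> simp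
          have h4 : ¬ Df u v p.1 := fun h' => hb ⟨h', hi⟩
          unfold stepL
          rw [if_neg hb, if_pos h3, if_neg h4]
        · rw [nxt_other h1 h2]
          unfold stepL
          rw [if_neg hb, if_neg (by simp [h1, h2])]

theorem ind_lab_le {N : ℕ → Fin n × Fin n} (hN : ∀ t, (N t).1 ≠ (N t).2) (s : ℕ)
    {y z : Fin n → Bool} (h : Le y z) (R K : ℕ) :
    ind (¬ LabOK N s y z R K) ≤
      (1 / 2 ^ (R + 1)) * pot (tr N s y K) (tr N s z K) (lab N s y z K) := by
  refine ind_le_of (mul_nonneg (by positivity) (pot_nonneg _ _ _)) fun hbad => ?_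
  unfold LabOK at hbad
  push Not at hbad
  obtain ⟨k, hk, i, hi, hR⟩ := hbad
  obtain ⟨l, rfl⟩ : ∃ l, K = k + l := ⟨K - k, by omega⟩
  obtain ⟨j, hj, hR'⟩ := lab_persist hN s h R k l ⟨i, hi, hR⟩
  have h1 : (2 : ℝ) ^ (R + 1) ≤
      pot (tr N s y (k + l)) (tr N s z (k + l)) (lab N s y z (k + l)) := by
    unfold pot
    refine le_trans ?_ (Finset.single_le_sum
      (f := fun i => if Df (tr N s y (k + l)) (tr N s z (k + l)) i then
        (2 : ℝ) ^ lab N s y z (k + l) i else 0)
      (fun i _ => by split_ifs <;> positivity) (Finset.mem_univ j))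
    rw [if_pos hj]
    exact pow_le_pow_right₀ (by norm_num) hR'
  rw [one_div, inv_mul_eq_div, le_div_iff₀ (by positivity)]
  linarith

variable (o : ℕ → Pr n → Fin n × Fin n)

theorem netOf_ne (ho : ∀ t g, Ori (o t g) g.1) (ω : ℕ → Pr n) (t : ℕ) :
    (netOf o ω t).1 ≠ (netOf o ω t).2 := (ho t _).ne (ω t).2

theorem netOf_update_of_ne (ω : ℕ → Pr n) {a t : ℕ} (g : Pr n) (h : t ≠ a) :
    netOf o (Function.update ω a g) t = netOf o ω t := by
  unfold netOf
  rw [Function.update_of_ne h]

theorem netOf_update_self (ω : ℕ → Pr n) (a : ℕ) (g : Pr n) :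
    netOf o (Function.update ω a g) a = o a g := by
  unfold netOf
  rw [Function.update_self]

theorem nonempty_Pr (hn : 2 ≤ n) : Nonempty (Pr n) :=
  ⟨⟨(⟨0, by omega⟩, ⟨1, by omega⟩), by simp [Fin.ext_iff]⟩⟩

theorem pot_win (hn : 2 ≤ n) (ho : ∀ t g, Ori (o t g) g.1) {y z : Fin n → Bool} (h : Le y z)
    (a K : ℕ) (ω : ℕ → Pr n) :
    Ew a K (fun ω' => pot (tr (netOf o ω') a y K) (tr (netOf o ω') a z K)
      (lab (netOf o ω') a y z K)) ω ≤ (1 + 12 * dn y z / (n : ℝ) ^ 2) ^ K * dn y z := by
  have := nonempty_Pr hn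
  have hc : (0 : ℝ) ≤ 1 + 12 * dn y z / (n : ℝ) ^ 2 := by
    have := dn_nonneg y z
    positivity
  induction K with
  | zero =>
    simp only [Ew, pow_zero, one_mul]
    refine le_of_eq ?_
    unfold pot dn
    rfl
  | succ K ih =>
    rw [Ew_add a K 1]
    have h1 : Ew a K (Ew (a + K) 1 (fun ω' => pot (tr (netOf o ω') a y (K + 1))
        (tr (netOf o ω') a z (K + 1)) (lab (netOf o ω') a y z (K + 1)))) ω ≤
        Ew a K (fun ω' => (1 + 12 * dn y z / (n : ℝ) ^ 2) *
          pot (tr (netOf o ω') a y K) (tr (netOf o ω') a z K)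
            (lab (netOf o ω') a y z K)) ω := by
      refine Ew_le a K _ _ ω fun ω' _ => ?_
      simp only [Ew]
      have hN := netOf_ne o ho ω'
      have h2 := avg_pot hn (o (a + K)) (ho (a + K)) (tr_le hN a h K)
        (lab (netOf o ω') a y z K)
      rw [dn_tr_le hN a h K] at h2
      refine le_trans (le_of_eq ?_) h2
      congr 1
      refine Finset.sum_congr rfl fun g _ => ?_
      have e1 : ∀ w : Fin n → Bool, tr (netOf o (Function.update ω' (a + K) g)) a w K =
          tr (netOf o ω') a w K := fun w => tr_congr fun t _ ht => by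
        rw [netOf_update_of_ne o ω' g (by omega)]
      have e2 : lab (netOf o (Function.update ω' (a + K) g)) a y z K =
          lab (netOf o ω') a y z K := lab_congr fun t _ ht => by
        rw [netOf_update_of_ne o ω' g (by omega)]
      change pot (cmp (netOf o (Function.update ω' (a + K) g) (a + K)) (tr _ a y K))
        (cmp (netOf o (Function.update ω' (a + K) g) (a + K)) (tr _ a z K))
        (stepL (netOf o (Function.update ω' (a + K) g) (a + K)) (tr _ a y K) (tr _ a z K)
          (lab _ a y z K)) = _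
      rw [e1, e1, e2, netOf_update_self]
    refine le_trans h1 ?_
    rw [Ew_mul, pow_succ]
    calc (1 + 12 * dn y z / (n : ℝ) ^ 2) * _ ≤ (1 + 12 * dn y z / (n : ℝ) ^ 2) *
          ((1 + 12 * dn y z / (n : ℝ) ^ 2) ^ K * dn y z) := mul_le_mul_of_nonneg_left ih hc
      _ = _ := by ring

theorem lab_tail (hn : 2 ≤ n) (ho : ∀ t g, Ori (o t g) g.1) {y z : Fin n → Bool}
    (h : Le y z) (a K R : ℕ) (ω : ℕ → Pr n) :
    Ew a K (fun ω' => ind (¬ LabOK (netOf o ω') a y z R K)) ω ≤
      (1 + 12 * dn y z / (n : ℝ) ^ 2) ^ K * dn y z / 2 ^ (R + 1) := by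
  have := nonempty_Pr hn
  have h1 : Ew a K (fun ω' => ind (¬ LabOK (netOf o ω') a y z R K)) ω ≤
      Ew a K (fun ω' => (1 / 2 ^ (R + 1)) * pot (tr (netOf o ω') a y K)
        (tr (netOf o ω') a z K) (lab (netOf o ω') a y z K)) ω :=
    Ew_le a K _ _ ω fun ω' _ => ind_lab_le (netOf_ne o ho ω') a h R K
  refine le_trans h1 ?_
  rw [Ew_mul, one_div, inv_mul_eq_div]
  exact div_le_div_of_nonneg_right (pot_win o hn ho h a K ω) (by positivity)

theorem dn_win (hn : 2 ≤ n) (ho : ∀ t g, Ori (o t g) g.1) {y z : Fin n → Bool}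
    (h : wt y = wt z) (a g : ℕ) (ω : ℕ → Pr n) :
    Ew a g (fun ω' => dn (tr (netOf o ω') a y g) (tr (netOf o ω') a z g)) ω ≤
      (n : ℝ) ^ 2 / (2 * (g + 2)) := by
  have := nonempty_Pr hn
  have hn2 : (2 : ℝ) ≤ n := by exact_mod_cast hn
  have hnn : (0 : ℝ) < (n : ℝ) ^ 2 := by positivity
  induction g with
  | zero =>
    simp only [Ew]
    have h1 := dn_sub_dn y z
    have h2 := dn_add_dn_le y z
    change dn y z ≤ _
    rw [Nat.cast_zero, zero_add, le_div_iff₀ (by norm_num)]
    nlinarith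
  | succ g ih =>
    rw [Ew_add a g 1]
    set b : ℝ := (n : ℝ) ^ 2 / (2 * (g + 2)) with hb
    have hg0 : (0 : ℝ) ≤ g := Nat.cast_nonneg g
    have h1 : Ew a g (Ew (a + g) 1 (fun ω' => dn (tr (netOf o ω') a y (g + 1))
        (tr (netOf o ω') a z (g + 1)))) ω ≤
        Ew a g (fun ω' => (1 - 4 * b / (n : ℝ) ^ 2) *
          dn (tr (netOf o ω') a y g) (tr (netOf o ω') a z g) +
            2 * b ^ 2 / (n : ℝ) ^ 2) ω := by
      refine Ew_le a g _ _ ω fun ω' _ => ?_
      simp only [Ew]
      have hN := netOf_ne o ho ω'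
      have hw : wt (tr (netOf o ω') a y g) = wt (tr (netOf o ω') a z g) := by
        rw [wt_tr hN, wt_tr hN, h]
      have h2 := avg_dn hn (o (a + g)) (ho (a + g)) hw
      have h3 : (∑ x : Pr n, dn (tr (netOf o (Function.update ω' (a + g) x)) a y (g + 1))
          (tr (netOf o (Function.update ω' (a + g) x)) a z (g + 1))) =
          ∑ x : Pr n, dn (cmp (o (a + g) x) (tr (netOf o ω') a y g))
            (cmp (o (a + g) x) (tr (netOf o ω') a z g)) := by
        refine Finset.sum_congr rfl fun x _ => ?_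
        have e1 : ∀ w : Fin n → Bool, tr (netOf o (Function.update ω' (a + g) x)) a w g =
            tr (netOf o ω') a w g := fun w => tr_congr fun t _ ht => by
          rw [netOf_update_of_ne o ω' x (by omega)]
        change dn (cmp (netOf o (Function.update ω' (a + g) x) (a + g)) (tr _ a y g))
          (cmp (netOf o (Function.update ω' (a + g) x) (a + g)) (tr _ a z g)) = _
        rw [e1, e1, netOf_update_self]
      rw [h3]
      refine le_trans h2 ?_
      set D := dn (tr (netOf o ω') a y g) (tr (netOf o ω') a z g) with hD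
      have h4 : 0 ≤ 2 / (n : ℝ) ^ 2 * (D - b) ^ 2 := by positivity
      have h5 : 2 / (n : ℝ) ^ 2 * (D - b) ^ 2 =
          2 / (n : ℝ) ^ 2 * D ^ 2 - 4 * b / (n : ℝ) ^ 2 * D + 2 * b ^ 2 / (n : ℝ) ^ 2 := by
        ring
      nlinarith
    refine le_trans h1 ?_
    rw [Ew_plus, Ew_mul, Ew_const]
    have h6 : 4 * b / (n : ℝ) ^ 2 = 2 / (g + 2) := by
      rw [hb]
      field_simp
      ring
    have h7 : 2 * b ^ 2 / (n : ℝ) ^ 2 = b / (g + 2) := by
      rw [hb]
      field_simp
    rw [h6, h7]
    have h8 : (0 : ℝ) ≤ 1 - 2 / (g + 2) := by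
      rw [sub_nonneg, div_le_one (by positivity)]
      linarith
    have h9 : (1 - 2 / ((g : ℝ) + 2)) * Ew a g (fun ω' => dn (tr (netOf o ω') a y g)
        (tr (netOf o ω') a z g)) ω ≤ (1 - 2 / ((g : ℝ) + 2)) * b :=
      mul_le_mul_of_nonneg_left ih h8
    refine le_trans (add_le_add_left h9 _) ?_
    have h10 : (1 - 2 / ((g : ℝ) + 2)) * b + b / (g + 2) = b * ((g + 1) / (g + 2)) := by
      field_simp
      ring
    rw [h10, hb, Nat.cast_succ, div_mul_div_comm, div_le_div_iff₀ (by positivity) (by positivity)]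
    nlinarith [mul_pos hnn (show (0 : ℝ) < 2 by norm_num), mul_nonneg hg0 hg0]

/-- `1/2` to the number of restarts. -/
theorem dn_restart (hn : 2 ≤ n) (ho : ∀ t g, Ori (o t g) g.1) {y z : Fin n → Bool}
    (h : wt y = wt z) (a g k : ℕ) (ω : ℕ → Pr n) :
    Ew a (k * g) (fun ω' => ind ((n : ℝ) ^ 2 / (g + 2) <
      dn (tr (netOf o ω') a y (k * g)) (tr (netOf o ω') a z (k * g)))) ω ≤ (1 / 2) ^ k := by
  have := nonempty_Pr hn
  have hn2 : (2 : ℝ) ≤ n := by exact_mod_cast hn
  have hnn : (0 : ℝ) < (n : ℝ) ^ 2 := by positivity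
  induction k with
  | zero =>
    rw [pow_zero]
    exact Ew_le_const a _ _ ω 1 fun _ _ => ind_le_one _
  | succ k ih =>
    have e : (k + 1) * g = k * g + g := by ring
    rw [e, Ew_add]
    set θ : ℝ := (n : ℝ) ^ 2 / (g + 2) with hθ
    have hθ0 : 0 < θ := by positivity
    have h1 : Ew a (k * g) (Ew (a + k * g) g (fun ω' => ind (θ <
        dn (tr (netOf o ω') a y (k * g + g)) (tr (netOf o ω') a z (k * g + g))))) ω ≤
        Ew a (k * g) (fun ω' => (1 / 2) * ind (θ <
          dn (tr (netOf o ω') a y (k * g)) (tr (netOf o ω') a z (k * g)))) ω := by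
      refine Ew_le a _ _ _ ω fun ω' _ => ?_
      by_cases hc : θ < dn (tr (netOf o ω') a y (k * g)) (tr (netOf o ω') a z (k * g))
      · rw [ind_true hc, mul_one]
        have hN := netOf_ne o ho ω'
        have hw : wt (tr (netOf o ω') a y (k * g)) = wt (tr (netOf o ω') a z (k * g)) := by
          rw [wt_tr hN, wt_tr hN, h]
        have h2 := dn_win o hn ho hw (a + k * g) g ω'
        have h3 : Ew (a + k * g) g (fun ω' => ind (θ <
            dn (tr (netOf o ω') a y (k * g + g)) (tr (netOf o ω') a z (k * g + g)))) ω' ≤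
            Ew (a + k * g) g (fun ω'' => (1 / θ) *
              dn (tr (netOf o ω'') (a + k * g) (tr (netOf o ω') a y (k * g)) g)
                (tr (netOf o ω'') (a + k * g) (tr (netOf o ω') a z (k * g)) g)) ω' := by
          refine Ew_le _ _ _ _ ω' fun ω'' hω'' => ?_
          have e1 : ∀ w : Fin n → Bool, tr (netOf o ω'') a w (k * g + g) =
              tr (netOf o ω'') (a + k * g) (tr (netOf o ω') a w (k * g)) g := by
            intro w
            rw [← tr_add]
            congr 1
            exact tr_congr fun t _ ht => by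
              unfold netOf
              rw [hω'' t (by omega)]
          rw [e1, e1]
          refine ind_le_of (mul_nonneg (by positivity) (dn_nonneg _ _)) fun h4 => ?_
          rw [one_div, inv_mul_eq_div, le_div_iff₀ hθ0, one_mul]
          exact h4.le
        refine le_trans h3 ?_
        rw [Ew_mul]
        calc 1 / θ * _ ≤ 1 / θ * ((n : ℝ) ^ 2 / (2 * (g + 2))) :=
              mul_le_mul_of_nonneg_left h2 (by positivity)
          _ = 1 / 2 := by
              rw [hθ]
              field_simp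
      · rw [ind_false hc, mul_zero]
        refine Ew_le_const _ _ _ ω' 0 fun ω'' hω'' => ?_
        rw [ind_false]
        intro h4
        apply hc
        refine lt_of_lt_of_le h4 ?_
        refine le_trans (dn_tr_anti (netOf_ne o ho ω'') a y z (k * g) g) (le_of_eq ?_)
        have e1 : ∀ w : Fin n → Bool, tr (netOf o ω'') a w (k * g) =
            tr (netOf o ω') a w (k * g) := fun w => tr_congr fun t _ ht => by
          unfold netOf
          rw [hω'' t (by omega)]
        rw [e1, e1]
    refine le_trans h1 ?_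
    rw [Ew_mul, pow_succ, mul_comm]
    exact mul_le_mul_of_nonneg_right ih (by norm_num)

theorem dn_tail (hn : 2 ≤ n) (ho : ∀ t g, Ori (o t g) g.1) {y z : Fin n → Bool}
    (h : wt y = wt z) (a g k T : ℕ) (hT : k * g ≤ T) (ω : ℕ → Pr n) :
    Ew a T (fun ω' => ind ((n : ℝ) ^ 2 / (g + 2) <
      dn (tr (netOf o ω') a y T) (tr (netOf o ω') a z T))) ω ≤ (1 / 2) ^ k := by
  have := nonempty_Pr hn
  obtain ⟨l, rfl⟩ : ∃ l, T = k * g + l := ⟨T - k * g, by omega⟩
  rw [Ew_add]
  refine le_trans (Ew_le a (k * g) _ _ ω fun ω' _ => ?_) (dn_restart o hn ho h a g k ω)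
  refine Ew_le_const _ _ _ ω' _ fun ω'' hω'' => ?_
  have e1 : ∀ w : Fin n → Bool, tr (netOf o ω'') a w (k * g) =
      tr (netOf o ω') a w (k * g) := fun w => tr_congr fun t _ ht => by
    unfold netOf
    rw [hω'' t (by omega)]
  refine ind_le_of (ind_nonneg _) fun h4 => ?_
  rw [ind_true]
  refine lt_of_lt_of_le h4 ?_
  rw [← e1, ← e1]
  exact dn_tr_anti (netOf_ne o ho ω'') a y z (k * g) l

end Pool.Agent.LibCCR
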