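import Pool.Agent.LibCC.Machine

/-!
Comparator networks on `n` wires: configurations, paths of tokens, pairs of comparable
configurations.
-/

namespace Pool.Agent.LibCCR

variable {n : ℕ}

/-- The configuration after a comparator: wire `p.1` receives the conjunction and wire `p.2` the
disjunction of the two bits. -/
def cmp (p : Fin n × Fin n) (y : Fin n → Bool) : Fin n → Bool := fun i =>
  if i = p.1 then y p.1 && y p.2 else if i = p.2 then y p.1 || y p.2 else y i

/-- The wire on which a change of the bit of the wire `i` is seen after the comparator. -/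
def nxt (p : Fin n × Fin n) (y : Fin n → Bool) (i : Fin n) : Fin n :=
  if i = p.1 then (if y p.2 then p.1 else p.2)
  else if i = p.2 then (if y p.1 then p.1 else p.2) else i

theorem cmp_fst (p : Fin n × Fin n) (y : Fin n → Bool) : cmp p y p.1 = (y p.1 && y p.2) := by
  simp [cmp]

theorem cmp_snd {p : Fin n × Fin n} (hp : p.1 ≠ p.2) (y : Fin n → Bool) :
    cmp p y p.2 = (y p.1 || y p.2) := by
  simp [cmp, hp.symm]

theorem cmp_other {p : Fin n × Fin n} {i : Fin n} (h1 : i ≠ p.1) (h2 : i ≠ p.2)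
    (y : Fin n → Bool) : cmp p y i = y i := by
  simp [cmp, h1, h2]

theorem nxt_fst (p : Fin n × Fin n) (y : Fin n → Bool) :
    nxt p y p.1 = if y p.2 then p.1 else p.2 := by
  simp [nxt]

theorem nxt_snd {p : Fin n × Fin n} (hp : p.1 ≠ p.2) (y : Fin n → Bool) :
    nxt p y p.2 = if y p.1 then p.1 else p.2 := by
  simp [nxt, hp.symm]

theorem nxt_other {p : Fin n × Fin n} {i : Fin n} (h1 : i ≠ p.1) (h2 : i ≠ p.2)
    (y : Fin n → Bool) : nxt p y i = i := by
  simp [nxt, h1, h2]

/-- the set of the wires with different bits, for `y ≤ z` -/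
def Df (y z : Fin n → Bool) (i : Fin n) : Prop := z i = true ∧ y i = false

instance (y z : Fin n → Bool) (i : Fin n) : Decidable (Df y z i) := by
  unfold Df; infer_instance

def Le (y z : Fin n → Bool) : Prop := ∀ i, y i = true → z i = true

theorem Le.cmp {p : Fin n × Fin n} (hp : p.1 ≠ p.2) {y z : Fin n → Bool} (h : Le y z) :
    Le (cmp p y) (cmp p z) := by
  intro i
  by_cases h1 : i = p.1
  · subst h1
    rw [cmp_fst, cmp_fst]
    have := h p.1
    have := h p.2
    revert this
    revert this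
    cases y p.1 <;> cases y p.2 <;> cases z p.1 <;> cases z p.2 <;> simp
  · by_cases h2 : i = p.2
    · subst h2
      rw [cmp_snd hp, cmp_snd hp]
      have := h p.1
      have := h p.2
      revert this
      revert this
      cases y p.1 <;> cases y p.2 <;> cases z p.1 <;> cases z p.2 <;> simp
    · rw [cmp_other h1 h2, cmp_other h1 h2]
      exact h i

theorem df_nxt {p : Fin n × Fin n} (hp : p.1 ≠ p.2) {y z : Fin n → Bool} (h : Le y z)
    {i : Fin n} (hi : Df y z i) : Df (cmp p y) (cmp p z) (nxt p y i) := by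
  obtain ⟨h1, h2⟩ := hi
  by_cases hi1 : i = p.1
  · subst hi1
    rw [nxt_fst]
    have h3 := h p.2
    cases hy : y p.2
    · simp only [Bool.false_eq_true, if_false]
      refine ⟨?_, ?_⟩
      · rw [cmp_snd hp, h1]; rfl
      · rw [cmp_snd hp, h2, hy]; rfl
    · simp only [if_true]
      refine ⟨?_, ?_⟩
      · rw [cmp_fst, h1, h3 hy]; rfl
      · rw [cmp_fst, h2]; rfl
  · by_cases hi2 : i = p.2
    · subst hi2
      rw [nxt_snd hp]
      have h3 := h p.1
      cases hy : y p.1
      · simp only [Bool.false_eq_true, if_false]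
        refine ⟨?_, ?_⟩
        · rw [cmp_snd hp, h1]; simp
        · rw [cmp_snd hp, h2, hy]; rfl
      · simp only [if_true]
        refine ⟨?_, ?_⟩
        · rw [cmp_fst, h1, h3 hy]; rfl
        · rw [cmp_fst, h2]; simp
    · rw [nxt_other hi1 hi2]
      exact ⟨by rw [cmp_other hi1 hi2]; exact h1, by rw [cmp_other hi1 hi2]; exact h2⟩

theorem df_both {p : Fin n × Fin n} (hp : p.1 ≠ p.2) {y z : Fin n → Bool}
    (h1 : Df y z p.1) (h2 : Df y z p.2) {j : Fin n} (hj : j = p.1 ∨ j = p.2) :
    Df (cmp p y) (cmp p z) j := by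
  obtain ⟨a1, a2⟩ := h1
  obtain ⟨b1, b2⟩ := h2
  rcases hj with rfl | rfl
  · exact ⟨by rw [cmp_fst, a1, b1]; rfl, by rw [cmp_fst, a2]; rfl⟩
  · exact ⟨by rw [cmp_snd hp, a1]; rfl, by rw [cmp_snd hp, a2, b2]; rfl⟩

/-- labels after a comparator -/
def stepL (p : Fin n × Fin n) (y z : Fin n → Bool) (lam : Fin n → ℕ) : Fin n → ℕ := fun j =>
  if Df y z p.1 ∧ Df y z p.2 then
    (if j = p.1 ∨ j = p.2 then max (lam p.1) (lam p.2) + 1 else lam j)
  else if j = p.1 ∨ j = p.2 then (if Df y z p.1 then lam p.1 else lam p.2) else lam j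

/-- Where a difference comes from. -/
theorem df_origin {p : Fin n × Fin n} (hp : p.1 ≠ p.2) {y z : Fin n → Bool} (h : Le y z)
    (lam : Fin n → ℕ) {j : Fin n} (hj : Df (cmp p y) (cmp p z) j) :
    (∃ i, Df y z i ∧ nxt p y i = j ∧ stepL p y z lam j = lam i) ∨
      (Df y z p.1 ∧ Df y z p.2 ∧ (j = p.1 ∨ j = p.2) ∧
        stepL p y z lam j = max (lam p.1) (lam p.2) + 1) := by
  by_cases hb : Df y z p.1 ∧ Df y z p.2
  · by_cases hj' : j = p.1 ∨ j = p.2
    · right
      refine ⟨hb.1, hb.2, hj', ?_⟩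
      simp [stepL, hb, hj']
    · left
      rw [not_or] at hj'
      refine ⟨j, ?_, nxt_other hj'.1 hj'.2 y, ?_⟩
      · obtain ⟨h1, h2⟩ := hj
        rw [cmp_other hj'.1 hj'.2] at h1 h2
        exact ⟨h1, h2⟩
      · simp [stepL, hb, hj']
  · left
    by_cases hj' : j = p.1 ∨ j = p.2
    · -- exactly one of the wires is active
      have key : (Df y z p.1 ∧ nxt p y p.1 = j) ∨ (Df y z p.2 ∧ nxt p y p.2 = j) := by
        obtain ⟨h1, h2⟩ := hj
        rw [nxt_fst, nxt_snd hp]
        have ha := h p.1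
        have hbb := h p.2
        unfold Df at hb ⊢
        rcases hj' with rfl | rfl
        · rw [cmp_fst] at h1 h2
          revert h1 h2 ha hbb hb
          cases y p.1 <;> cases y p.2 <;> cases z p.1 <;> cases z p.2 <;> simp
        · rw [cmp_snd hp] at h1 h2
          revert h1 h2 ha hbb hb
          cases y p.1 <;> cases y p.2 <;> cases z p.1 <;> cases z p.2 <;> simp
      rcases key with ⟨k1, k2⟩ | ⟨k1, k2⟩
      · have k3 : ¬ Df y z p.2 := fun h' => hb ⟨k1, h'⟩
        exact ⟨p.1, k1, k2, by simp [stepL, hj', k1, k3]⟩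
      · have k3 : ¬ Df y z p.1 := fun h' => hb ⟨h', k1⟩
        exact ⟨p.2, k1, k2, by simp [stepL, hj', k3]⟩
    · rw [not_or] at hj'
      refine ⟨j, ?_, nxt_other hj'.1 hj'.2 y, ?_⟩
      · obtain ⟨h1, h2⟩ := hj
        rw [cmp_other hj'.1 hj'.2] at h1 h2
        exact ⟨h1, h2⟩
      · simp [stepL, hb, hj']

/-- The configurations of the network with gates `N` started at time `s`. -/
def tr (N : ℕ → Fin n × Fin n) (s : ℕ) (y : Fin n → Bool) : ℕ → Fin n → Bool
  | 0 => y
  | k + 1 => cmp (N (s + k)) (tr N s y k)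

theorem tr_add (N : ℕ → Fin n × Fin n) (s : ℕ) (y : Fin n → Bool) (k l : ℕ) :
    tr N (s + k) (tr N s y k) l = tr N s y (k + l) := by
  induction l with
  | zero => rfl
  | succ l ih =>
    change cmp (N (s + k + l)) (tr N (s + k) (tr N s y k) l) = tr N s y (k + l + 1)
    rw [ih, Nat.add_assoc]
    rfl

theorem tr_le {N : ℕ → Fin n × Fin n} (hN : ∀ t, (N t).1 ≠ (N t).2) (s : ℕ)
    {y z : Fin n → Bool} (h : Le y z) (k : ℕ) : Le (tr N s y k) (tr N s z k) := by
  induction k with
  | zero => exact h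
  | succ k ih => exact ih.cmp (hN _)

/-- Labels: the number of meetings in the past of a difference. -/
def lab (N : ℕ → Fin n × Fin n) (s : ℕ) (y z : Fin n → Bool) : ℕ → Fin n → ℕ
  | 0 => fun _ => 0
  | k + 1 => stepL (N (s + k)) (tr N s y k) (tr N s z k) (lab N s y z k)

/-- All labels up to time `s + K` are at most `R`. -/
def LabOK (N : ℕ → Fin n × Fin n) (s : ℕ) (y z : Fin n → Bool) (R K : ℕ) : Prop :=
  ∀ k ≤ K, ∀ i, Df (tr N s y k) (tr N s z k) i → lab N s y z k i ≤ R

theorem cmp_swap {p : Fin n × Fin n} (hp : p.1 ≠ p.2) (y : Fin n → Bool) :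
    cmp (p.2, p.1) (fun i => !y i) = fun i => !cmp p y i := by
  funext i
  by_cases h1 : i = p.1
  · subst h1
    rw [cmp_fst, cmp_snd (p := (p.2, p.1)) hp.symm]
    simp [Bool.or_comm]
  · by_cases h2 : i = p.2
    · subst h2
      rw [cmp_snd hp, cmp_fst (p.2, p.1)]
      simp [Bool.and_comm]
    · rw [cmp_other h1 h2, cmp_other (p := (p.2, p.1)) h2 h1]

theorem tr_swap {N : ℕ → Fin n × Fin n} (hN : ∀ t, (N t).1 ≠ (N t).2) (s : ℕ)
    (y : Fin n → Bool) (k : ℕ) :
    tr (fun t => ((N t).2, (N t).1)) s (fun i => !y i) k = fun i => !tr N s y k i := by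
  induction k with
  | zero => rfl
  | succ k ih =>
    change cmp _ _ = _
    rw [ih]
    exact cmp_swap (hN _) _

end Pool.Agent.LibCCR
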