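import Pool.Agent.LibCCR.Alg

/-!
The table of partial trajectories and its extension.
-/

namespace Pool.Agent.LibCCR

open Relation Pool.Agent.LibCC

variable {n m : ℕ}

/-- Tables: for every starting time a history. -/
abbrev Tb (n m : ℕ) : Type := Fin (m + 1) × Nd n m

def up (h : ℕ) (τ : Fin (m + 1)) : Fin (m + 1) := ⟨min (τ + h) m, by omega⟩

/-- One extension of the table. -/
def stepT (L R l h : ℕ) (z : Bit n m → Bool) (Y : Tb n m → Bool) : Tb n m → Bool := fun p =>
  if (p.2.1 : ℕ) ≤ p.1 + l then Y p else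
    !(hopE true (p.1 + l) L R z (fun v => Y (p.1, v))
      (fun v => !(hopE false (p.1 + l) L R z (fun v => Y (p.1, v))
        (fun v => Y (up h p.1, v)) v)) p.2)

/-- The table is correct for times at distance at most `l` from the starting time. -/
def Known (N : ℕ → Fin n × Fin n) (x : Fin n → Bool) (Y : Tb n m → Bool) (l : ℕ) : Prop :=
  ∀ (τ : Fin (m + 1)) (k : ℕ) (hk : (τ : ℕ) + k ≤ m) (i : Fin n), k ≤ l →
    Y (τ, (⟨τ + k, by omega⟩, i)) = tr N τ x k i

/-- The two conditions on labels needed for the extension at the starting time `τ`. -/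
def LabT (N : ℕ → Fin n × Fin n) (x : Fin n → Bool) (R l h m τ : ℕ) : Prop :=
  LabOK (Ns false N) (τ + l) (tr N (τ + h) x (l - h))
    (fun i => tr N (τ + h) x (l - h) i || tr N τ x l i) R (min h (m - (τ + l))) ∧
  LabOK (Ns true N) (τ + l)
    (fun i => !(tr N (τ + h) x (l - h) i || tr N τ x l i))
    (fun i => !tr N τ x l i) R (min h (m - (τ + l)))

theorem stepT_known {z : Bit n m → Bool} {N : ℕ → Fin n × Fin n} (hz : Enc z N)
    (hN : ∀ t, (N t).1 ≠ (N t).2) {L : ℕ} (hL : Fintype.card (Nd n m) ≤ 2 ^ L) (R l h : ℕ)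
    (hlh : h ≤ l) (x : Fin n → Bool) (Y : Tb n m → Bool) (hY : Known N x Y l)
    (hlab : ∀ τ, τ + l ≤ m → LabT N x R l h m τ) :
    Known N x (stepT L R l h z Y) (l + h) := by
  intro τ k hk i hkl
  unfold stepT
  by_cases h1 : k ≤ l
  · have h2 : ((⟨τ + k, by omega⟩ : Fin (m + 1)) : ℕ) ≤ (τ : ℕ) + l := by
      simp only
      omega
    rw [if_pos h2]
    exact hY τ k hk i h1
  · have h2 : ¬ ((⟨τ + k, by omega⟩ : Fin (m + 1)) : ℕ) ≤ (τ : ℕ) + l := by
      simp only
      omega
    rw [if_neg h2]
    obtain ⟨k', hk'⟩ : ∃ k', k = l + k' := ⟨k - l, by omega⟩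
    subst hk'
    set t1 := (τ : ℕ) + l with ht1
    have htm : t1 ≤ m := by omega
    obtain ⟨hlab1, hlab2⟩ := hlab τ htm
    set K := min h (m - t1) with hK
    have htK : t1 + K ≤ m := by omega
    have hkK : k' ≤ K := by omega
    set y : Fin n → Bool := tr N (τ + h) x (l - h) with hy
    set z0 : Fin n → Bool := tr N τ x l with hz0
    set E1 : Nd n m → Bool := fun v => Y (up h τ, v) with hE1
    have hup : up h τ = ⟨τ + h, by omega⟩ := by
      apply Fin.ext
      simp only [up]
      omega
    have hE : ∀ k (hk : k ≤ K) i, E1 (⟨t1 + k, by omega⟩, i) =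
        tr (Ns false N) t1 y k i := by
      intro k hk i
      have e1 : (⟨t1 + k, by omega⟩ : Fin (m + 1)) =
          ⟨((⟨τ + h, by omega⟩ : Fin (m + 1)) : ℕ) + (l - h + k), by simp only; omega⟩ := by
        apply Fin.ext
        simp only
        omega
      rw [hE1]
      simp only
      rw [hup, e1, hY ⟨τ + h, by omega⟩ (l - h + k) (by simp only; omega) i (by omega)]
      simp only
      have e2 : (Ns false N) = N := rfl
      rw [e2, hy, ← tr_add]
      have e3 : (τ : ℕ) + h + (l - h) = t1 := by omega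
      rw [e3]
    have hzz : ∀ i, Y (τ, (⟨t1, by omega⟩, i)) = z0 i := fun i => hY τ l htm i le_rfl
    have hop1 := hop_spec hz hN false hL R (fun v => Y (τ, v)) E1 htK hE (z0 := z0)
      (fun i => by simpa using hzz i) hlab1
    set E2 : Nd n m → Bool := fun v => !(hopE false t1 L R z (fun v => Y (τ, v)) E1 v) with hE2
    have hsw : ∀ t, ((Ns true N) t) = ((N t).2, (N t).1) := fun t => rfl
    have hswf : Ns true N = fun t => ((N t).2, (N t).1) := rfl
    have hE2' : ∀ k (hk : k ≤ K) i, E2 (⟨t1 + k, by omega⟩, i) =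
        tr (Ns true N) t1 (fun i => !(y i || z0 i)) k i := by
      intro k hk i
      rw [hE2]
      simp only
      rw [hop1 k hk i, hswf, tr_swap hN]
      rfl
    have habs : (fun i => (!(y i || z0 i)) || (!z0 i)) = fun i => !z0 i := by
      funext i
      cases y i <;> cases z0 i <;> rfl
    have hop2 := hop_spec hz hN true hL R (fun v => Y (τ, v)) E2 htK hE2' (z0 := fun i => !z0 i)
      (fun i => by simpa using hzz i) (by rw [habs]; exact hlab2)
    have h3 := hop2 k' hkK i
    rw [habs, hswf, tr_swap hN] at h3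
    have e4 : (⟨τ + (l + k'), by omega⟩ : Fin (m + 1)) = ⟨t1 + k', by omega⟩ := by
      apply Fin.ext
      simp only
      omega
    rw [e4]
    change (!(hopE true t1 L R z (fun v => Y (τ, v)) E2 (⟨t1 + k', by omega⟩, i))) = _
    rw [h3, Bool.not_not, hz0, ht1, tr_add]

/-- The first table: one direct step of the network. -/
def initT (z : Bit n m → Bool) : Tb n m → Bool := fun p =>
  if h : (p.2.1 : ℕ) = p.1 + 1 then
    cmpB (fun k => z (.gate ⟨p.1, by have := p.2.1.isLt; omega⟩ false k))
      (fun k => z (.gate ⟨p.1, by have := p.2.1.isLt; omega⟩ true k))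
      (fun k => z (.src k)) p.2.2
  else z (.src p.2.2)

theorem initT_known {z : Bit n m → Bool} {N : ℕ → Fin n × Fin n} (hz : Enc z N) :
    Known N (fun i => z (.src i)) (initT z) 1 := by
  intro τ k hk i hk1
  unfold initT
  interval_cases k
  · have h1 : ¬ ((⟨τ + 0, by omega⟩ : Fin (m + 1)) : ℕ) = (τ : ℕ) + 1 := by
      simp only
      omega
    rw [dif_neg h1]
    rfl
  · have h1 : ((⟨τ + 1, by omega⟩ : Fin (m + 1)) : ℕ) = (τ : ℕ) + 1 := rfl
    rw [dif_pos h1]
    have e1 : (fun k => z (.gate ⟨(τ : ℕ), by omega⟩ false k)) =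
        fun k => decide ((N τ).1 = k) := by
      funext k
      rw [hz]
      rfl
    have e2 : (fun k => z (.gate ⟨(τ : ℕ), by omega⟩ true k)) =
        fun k => decide ((N τ).2 = k) := by
      funext k
      rw [hz]
      rfl
    simp only
    rw [e1, e2, cmpB_eq]
    rfl

/-- The range of correctness after `j` extensions. -/
def ell : ℕ → ℕ
  | 0 => 1
  | j + 1 => ell j + (ell j + 1) / 2

def tabT (L R : ℕ) (z : Bit n m → Bool) : ℕ → Tb n m → Bool
  | 0 => initT z
  | j + 1 => stepT L R (ell j) ((ell j + 1) / 2) z (tabT L R z j)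

theorem ell_pos (j : ℕ) : 1 ≤ ell j := by
  induction j with
  | zero => exact le_rfl
  | succ j ih => simp only [ell]; omega

theorem ell_ge (i : ℕ) : 2 ^ i ≤ ell (2 * i) := by
  induction i with
  | zero => exact le_rfl
  | succ i ih =>
    have e : 2 * (i + 1) = 2 * i + 1 + 1 := by ring
    rw [e]
    simp only [ell]
    rw [pow_succ]
    have := ell_pos (2 * i)
    omega

theorem tabT_known {z : Bit n m → Bool} {N : ℕ → Fin n × Fin n} (hz : Enc z N)
    (hN : ∀ t, (N t).1 ≠ (N t).2) {L : ℕ} (hL : Fintype.card (Nd n m) ≤ 2 ^ L) (R j : ℕ)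
    (hlab : ∀ j' < j, ∀ τ, τ + ell j' ≤ m →
      LabT N (fun i => z (.src i)) R (ell j') ((ell j' + 1) / 2) m τ) :
    Known N (fun i => z (.src i)) (tabT L R z j) (ell j) := by
  induction j with
  | zero => exact initT_known hz
  | succ j ih =>
    have h1 := ih (fun j' hj' => hlab j' (by omega))
    exact stepT_known hz hN hL R (ell j) _ (by have := ell_pos j; omega) _ _ h1
      (hlab j (by omega))

def bxr (a b : Bool) : Bool := (a && !b) || (!a && b)

theorem bxr_iff (a b : Bool) : bxr a b = true ↔ a ≠ b := by cases a <;> cases b <;> simp [bxr]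

/-- The value of the wire `i` at the time `t` contradicts the network. -/
def badV (z : Bit n m → Bool) (Y : Tb n m → Bool) (u : Nd n m) : Bool :=
  if h : 0 < (u.1 : ℕ) then
    bxr (Y (0, u)) (cmpB (fun k => z (.gate ⟨u.1 - 1, by have := u.1.isLt; omega⟩ false k))
      (fun k => z (.gate ⟨u.1 - 1, by have := u.1.isLt; omega⟩ true k))
      (fun k => Y (0, (⟨u.1 - 1, by have := u.1.isLt; omega⟩, k))) u.2)
  else bxr (Y (0, u)) (z (.src u.2))

/-- The test of the whole history. -/
def okV (z : Bit n m → Bool) (Y : Tb n m → Bool) : Bool :=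
  !decide (∃ u, badV z Y u = true)

theorem okV_iff {z : Bit n m → Bool} {N : ℕ → Fin n × Fin n} (hz : Enc z N)
    (Y : Tb n m → Bool) : okV z Y = true ↔
      ∀ (t : Fin (m + 1)) (i : Fin n), Y (0, (t, i)) = tr N 0 (fun i => z (.src i)) t i := by
  have h0 : okV z Y = true ↔ ∀ u, badV z Y u = false := by
    simp [okV]
  rw [h0]
  have hb : ∀ (t : ℕ) (ht : t < m) (i : Fin n),
      badV z Y (⟨t + 1, by omega⟩, i) = false ↔
        Y (0, (⟨t + 1, by omega⟩, i)) =
          cmp (N t) (fun k => Y (0, (⟨t, by omega⟩, k))) i := by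
    intro t ht i
    unfold badV
    rw [dif_pos (Nat.succ_pos t)]
    have e1 : (fun k => z (.gate ⟨t, ht⟩ false k)) =
        fun k => decide ((N t).1 = k) := by
      funext k
      rw [hz]
      rfl
    have e2 : (fun k => z (.gate ⟨t, ht⟩ true k)) =
        fun k => decide ((N t).2 = k) := by
      funext k
      rw [hz]
      rfl
    simp only [Nat.add_sub_cancel]
    rw [e1, e2, cmpB_eq]
    have := bxr_iff (Y (0, (⟨t + 1, by omega⟩, i)))
      (cmp (N t) (fun k => Y (0, (⟨t, by omega⟩, k))) i)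
    rw [← not_iff_not, Bool.not_eq_false, this]
  have hb0 : ∀ (i : Fin n), badV z Y (⟨0, by omega⟩, i) = false ↔
      Y (0, (⟨0, by omega⟩, i)) = z (.src i) := by
    intro i
    unfold badV
    rw [dif_neg (by simp)]
    have := bxr_iff (Y (0, (⟨0, by omega⟩, i))) (z (.src i))
    rw [← not_iff_not, Bool.not_eq_false, this]
  constructor
  · intro h
    have key : ∀ (t : ℕ) (ht : t ≤ m) (i : Fin n), Y (0, (⟨t, by omega⟩, i)) =
        tr N 0 (fun i => z (.src i)) t i := by
      intro t
      induction t with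
      | zero =>
        intro ht i
        exact (hb0 i).1 (h _)
      | succ t ih =>
        intro ht i
        rw [(hb t (by omega) i).1 (h _)]
        have e : (fun k => Y (0, (⟨t, by omega⟩, k))) = tr N 0 (fun i => z (.src i)) t :=
          funext (ih (by omega))
        rw [e]
        change _ = cmp (N (0 + t)) _ i
        rw [Nat.zero_add]
    intro t i
    exact key t (by have := t.isLt; omega) i
  · rintro h ⟨t, i⟩
    rcases Nat.eq_zero_or_pos (t : ℕ) with h1 | h1
    · have e : t = ⟨0, by omega⟩ := Fin.ext h1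
      rw [e, hb0, h ⟨0, by omega⟩ i]
      rfl
    · obtain ⟨t', ht'⟩ := Nat.exists_eq_succ_of_ne_zero (Nat.pos_iff_ne_zero.1 h1)
      have hlt : t' < m := by have := t.isLt; omega
      have e : t = ⟨t' + 1, by omega⟩ := Fin.ext ht'
      rw [e, hb t' hlt i, h ⟨t' + 1, by omega⟩ i]
      have e2 : (fun k => Y (0, (⟨t', by omega⟩, k))) = tr N 0 (fun i => z (.src i)) t' := by
        funext k
        exact h ⟨t', by omega⟩ k
      rw [e2]
      change cmp (N (0 + t')) _ i = _
      rw [Nat.zero_add]

end Pool.Agent.LibCCR
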